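import Pool.Agent.Q198.Orig.Hyp

/-! # The bound on the number of squares -/

namespace Q198.Orig

open Finset Module

variable {α : Type} [Fintype α] [DecidableEq α] {P : Equiv.Perm α × Equiv.Perm α}
  {p : List Bool} {σ : Equiv.Perm α}

/-- Real version of an integral cochain. -/
def castC (x : Coch α ℤ) : Coch α ℝ := (fun i => (x.1 i : ℝ), fun i => (x.2 i : ℝ))

omit [Fintype α] [DecidableEq α] in
lemma castC_runE (p : List Bool) (P : Equiv.Perm α × Equiv.Perm α) (x : Coch α ℤ) :
    castC (runE ℤ p P x) = runE ℝ p P (castC x) := by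
  induction p generalizing P x with
  | nil => rfl
  | cons g p ih =>
    rw [runE_cons, runE_cons, ih]
    congr 1
    cases g <;> ext i <;> simp [castC]

omit [Fintype α] [DecidableEq α] in
lemma castC_Bop (x : Coch α ℤ) : castC (Bop ℤ p P σ x) = Bop ℝ p P σ (castC x) := by
  rw [Bop_apply, Bop_apply, ← castC_runE]
  rfl

/-- A real root of large absolute value. -/
lemma exists_root {t d : ℤ} {lam τ : ℝ} (hl : 1 < lam) (hr : lam ^ 2 - τ * lam + 1 = 0)
    (hd : d = 1 ∨ d = -1) (ht : τ ≤ t ∨ (t : ℝ) < -τ) :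
    ∃ μ : ℝ, μ ^ 2 - t * μ + d = 0 ∧ (lam < |μ| ∨ μ = lam) := by
  have hd1 : (d : ℝ) ≤ 1 := by rcases hd with h | h <;> simp [h]
  rcases ht with ht | ht
  · have hf : lam ^ 2 - t * lam + d ≤ 0 := by nlinarith
    have hdisc : 0 ≤ (t : ℝ) ^ 2 - 4 * d := by nlinarith [sq_nonneg (2 * lam - t)]
    set s := Real.sqrt ((t : ℝ) ^ 2 - 4 * d) with hs
    have hss : s ^ 2 = (t : ℝ) ^ 2 - 4 * d := Real.sq_sqrt hdisc
    have hs0 : 0 ≤ s := Real.sqrt_nonneg _
    have hge : 2 * lam - t ≤ s := by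
      apply Real.le_sqrt_of_sq_le
      nlinarith
    refine ⟨(t + s) / 2, by nlinarith, ?_⟩
    rcases eq_or_lt_of_le (show lam ≤ (t + s) / 2 by linarith) with h | h
    · right; exact h.symm
    · left; exact lt_of_lt_of_le h (le_abs_self _)
  · have hf : lam ^ 2 + t * lam + d < 0 := by nlinarith
    have hdisc : 0 ≤ (t : ℝ) ^ 2 - 4 * d := by nlinarith [sq_nonneg (2 * lam + t)]
    set s := Real.sqrt ((t : ℝ) ^ 2 - 4 * d) with hs
    have hss : s ^ 2 = (t : ℝ) ^ 2 - 4 * d := Real.sq_sqrt hdisc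
    have hs0 : 0 ≤ s := Real.sqrt_nonneg _
    have hge : 2 * lam + t < s := by
      apply Real.lt_sqrt_of_sq_lt
      nlinarith
    refine ⟨(t - s) / 2, by nlinarith, ?_⟩
    left
    rw [lt_abs]
    right
    linarith

/-- A word with both letters fixing a primitive origami of `H(2)` has large trace. -/
theorem hyp_bound (ht : true ∈ p) (hf : false ∈ p)
    (h : run p P = (σ * P.1 * σ⁻¹, σ * P.2 * σ⁻¹)) (hP : Prim P) (hT : Trans P)
    (hM : ∃ a b : α, a ≠ b ∧ nc P a ∧ nc P b)
    (h3 : Nat.card {i : α // ¬ nc P i} + 3 = Fintype.card α) :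
    (Fintype.card α : ℤ) ≤ 2 * (mt p).trace := by
  by_contra hcon
  push Not at hcon
  have hM1 : ∃ a : α, nc P a := by obtain ⟨a, b, -, ha, -⟩ := hM; exact ⟨a, ha⟩
  have : Nonempty α := ⟨hM1.choose⟩
  have : Module.IsTorsionFree ℤ (Qt P) := tf_Qt hP hM1
  have : Module.Finite ℤ (Zc P) := inferInstance
  have : Module.Finite ℤ (Qt P) := inferInstance
  have : Module.Free ℤ (Qt P) := Module.free_of_finite_type_torsion_free'
  let b : Basis (Fin 2) ℤ (Qt P) := Module.finBasisOfFinrankEq ℤ (Qt P) (rank_Qt hP hM h3)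
  have htr := trace_congr h hP hM b
  set N := LinearMap.toMatrix b b (Bq h).toLinearMap with hN
  have hdet : N.det = 1 ∨ N.det = -1 := Int.isUnit_iff.1 ((Bq h).isUnit_det b b)
  -- the trace
  have hτ3 : 3 ≤ (mt p).trace := by
    rw [Matrix.trace_fin_two]; exact mt_trace p ht hf
  have hdvd : (Fintype.card α : ℤ) ∣ (mt p).trace - N.trace := by
    rw [← ZMod.intCast_zmod_eq_zero_iff_dvd, Int.cast_sub, htr, sub_self]
  have htt : (mt p).trace ≤ N.trace ∨ N.trace < -(mt p).trace := by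
    by_contra hno
    push Not at hno
    obtain ⟨k, hk⟩ := hdvd
    have h1 : 0 < (mt p).trace - N.trace := by linarith [hno.1]
    have h2 : (mt p).trace - N.trace ≤ 2 * (mt p).trace := by linarith [hno.2]
    have hn : 0 < (Fintype.card α : ℤ) := by linarith
    have hk1 : 0 < k := by
      by_contra hk0
      push Not at hk0
      have := mul_nonneg hn.le (neg_nonneg.2 hk0)
      linarith
    nlinarith
  obtain ⟨lam, u, hE⟩ := exists_eig p ht hf
  set τ : ℝ := (mt p 0 0 : ℝ) + (mt p 1 1 : ℝ) with hτ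
  have hτt : ((mt p).trace : ℝ) = τ := by rw [Matrix.trace_fin_two]; push_cast; rfl
  obtain ⟨μ, hμ, hμl⟩ := exists_root (t := N.trace) (d := N.det) hE.one_lt hE.root hdet (by
    rcases htt with h1 | h1
    · left; rw [← hτ, ← hτt]; exact_mod_cast h1
    · right; rw [← hτ, ← hτt]; exact_mod_cast h1)
  -- a real eigenvector
  let NR : Matrix (Fin 2) (Fin 2) ℝ := N.map (Int.cast : ℤ → ℝ)
  have hdet0 : (NR - μ • (1 : Matrix (Fin 2) (Fin 2) ℝ)).det = 0 := by
    rw [Matrix.det_fin_two]
    simp only [Matrix.sub_apply, Matrix.smul_apply, Matrix.one_apply, smul_eq_mul, NR,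
      Matrix.map_apply]
    rw [Matrix.trace_fin_two, Matrix.det_fin_two] at hμ
    push_cast at hμ
    simp
    linarith
  obtain ⟨c, hc0, hc⟩ := Matrix.exists_mulVec_eq_zero_iff.2 hdet0
  have hceq : ∀ k, ∑ j, (N k j : ℝ) * c j = μ * c k := by
    intro k
    have := congrFun hc k
    rw [Matrix.sub_mulVec, Matrix.smul_mulVec, Matrix.one_mulVec] at this
    simp only [Pi.sub_apply, Pi.smul_apply, smul_eq_mul, Pi.zero_apply] at this
    have h2 : (NR.mulVec c) k = ∑ j, (N k j : ℝ) * c j := rfl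
    rw [h2] at this
    linarith
  -- lifts
  have hz : ∀ j, ∃ z : Zc P, Submodule.Quotient.mk z = b j := fun j =>
    Submodule.Quotient.mk_surjective _ (b j)
  choose z hz using hz
  have hB : ∀ j, ∃ (f : α → ℤ) (w : ℤ × ℤ), Bop ℤ p P σ (z j) =
      ∑ k, N k j • (z k : Coch α ℤ) + dl P f + cst w := by
    intro j
    have h1 : Bq h (b j) = ∑ k, N k j • b k := by
      have := b.sum_repr (Bq h (b j))
      rw [← this]
      refine Finset.sum_congr rfl fun k _ => ?_
      rw [hN, LinearMap.toMatrix_apply]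
      rfl
    rw [← hz j, Bq_mk] at h1
    have h2 : (Submodule.Quotient.mk (BZ h (z j) - ∑ k, N k j • z k) : Qt P) = 0 := by
      rw [Submodule.Quotient.mk_sub, h1]
      rw [sub_eq_zero]
      rw [← Submodule.mkQ_apply, map_sum]
      refine Finset.sum_congr rfl fun k _ => ?_
      rw [← hz k, map_zsmul]
      rfl
    rw [Submodule.Quotient.mk_eq_zero] at h2
    obtain ⟨⟨f, w⟩, hfw⟩ := h2
    refine ⟨f, w, ?_⟩
    have h3 : (BZ h (z j) : Coch α ℤ) - ∑ k, N k j • (z k : Coch α ℤ) = dl P f + cst w := by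
      rw [← Th_apply P (f, w), hfw]
      simp
    rw [BZ_apply] at h3
    rw [add_assoc, ← h3]
    abel
  choose f w hfw using hB
  -- the real eigen-cochain
  let x : Coch α ℝ := ∑ j, c j • castC (z j)
  have hBc : ∀ j, Bop ℝ p P σ (castC (z j)) =
      ∑ k, (N k j : ℝ) • castC (z k) + dl P (fun i => (f j i : ℝ)) +
        cst (((w j).1 : ℝ), ((w j).2 : ℝ)) := by
    intro j
    rw [← castC_Bop, hfw]
    ext i
    · simp [castC, dl, cst, Fin.sum_univ_two]
    · simp [castC, dl, cst, Fin.sum_univ_two]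
  have hx : Bop ℝ p P σ x = μ • x + dl P (fun i => ∑ j, c j * (f j i : ℝ)) +
      cst (∑ j, c j * ((w j).1 : ℝ), ∑ j, c j * ((w j).2 : ℝ)) := by
    have e0 := hceq 0
    have e1 := hceq 1
    simp only [Fin.sum_univ_two] at e0 e1
    simp only [x, Fin.sum_univ_two, map_add, map_smul, hBc]
    ext i
    · simp [dl, cst, castC]
      linear_combination ((z 0).1.1 i : ℝ) * e0 + ((z 1).1.1 i : ℝ) * e1
    · simp [dl, cst, castC]
      linear_combination ((z 0).1.2 i : ℝ) * e0 + ((z 1).1.2 i : ℝ) * e1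
  obtain ⟨f', w', hx'⟩ := mem_bd ht hf hT h hE hμl hx
  -- rational functionals
  apply hc0
  have key : ∀ (φ : ℝ →ₗ[ℚ] ℚ) (j : Fin 2), φ (c j) = 0 := by
    intro φ
    let g : (Fin 2) ⊕ (α ⊕ Fin 2) → ℚ :=
      Sum.elim (fun j => φ (c j)) (Sum.elim (fun i => φ (f' i)) ![φ w'.1, φ w'.2])
    obtain ⟨m, hm⟩ := IsLocalization.exist_integer_multiples (nonZeroDivisors ℤ)
      (Finset.univ) g
    have hm0 : (m : ℤ) ≠ 0 := nonZeroDivisors.ne_zero m.2
    have hint : ∀ s, ∃ y : ℤ, (y : ℚ) = (m : ℤ) * g s := by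
      intro s
      obtain ⟨y, hy⟩ := hm s (Finset.mem_univ _)
      refine ⟨y, ?_⟩
      have : (algebraMap ℤ ℚ) y = (m : ℤ) • g s := hy
      rw [zsmul_eq_mul] at this
      exact this
    choose y hy using hint
    have rel1 : ∀ i, ∑ j, φ (c j) * ((z j).1.1 i : ℚ) = φ (f' (P.1 i)) - φ (f' i) + φ w'.1 := by
      intro i
      have h1 := congrFun (congrArg Prod.fst hx') i
      have h2 : ∑ j, ((z j).1.1 i : ℚ) • c j = f' (P.1 i) - f' i + w'.1 := by
        simp only [x, Fin.sum_univ_two] at h1 ⊢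
        simp [castC, dl, cst] at h1
        rw [← h1]
        simp only [Algebra.smul_def, eq_ratCast, Rat.cast_intCast]
        ring
      have h3 := congrArg φ h2
      rw [map_sum, map_add, map_sub] at h3
      rw [← h3]
      refine Finset.sum_congr rfl fun j _ => ?_
      rw [map_smul, smul_eq_mul, mul_comm]
    have rel2 : ∀ i, ∑ j, φ (c j) * ((z j).1.2 i : ℚ) = φ (f' (P.2 i)) - φ (f' i) + φ w'.2 := by
      intro i
      have h1 := congrFun (congrArg Prod.snd hx') i
      have h2 : ∑ j, ((z j).1.2 i : ℚ) • c j = f' (P.2 i) - f' i + w'.2 := by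
        simp only [x, Fin.sum_univ_two] at h1 ⊢
        simp [castC, dl, cst] at h1
        rw [← h1]
        simp only [Algebra.smul_def, eq_ratCast, Rat.cast_intCast]
        ring
      have h3 := congrArg φ h2
      rw [map_sum, map_add, map_sub] at h3
      rw [← h3]
      refine Finset.sum_congr rfl fun j _ => ?_
      rw [map_smul, smul_eq_mul, mul_comm]
    -- integral relation
    have hmem : (∑ j, y (Sum.inl j) • (z j : Coch α ℤ)) ∈ Bc P := by
      refine ⟨(fun i => y (Sum.inr (Sum.inl i)), (y (Sum.inr (Sum.inr 0)), y (Sum.inr (Sum.inr 1)))), ?_⟩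
      rw [Th_apply]
      have hyc : ∀ j, (y (Sum.inl j) : ℚ) = (m : ℤ) * φ (c j) := fun j => hy _
      have hyf : ∀ i, (y (Sum.inr (Sum.inl i)) : ℚ) = (m : ℤ) * φ (f' i) := fun i => hy _
      have hy0 : (y (Sum.inr (Sum.inr 0)) : ℚ) = (m : ℤ) * φ w'.1 := hy _
      have hy1 : (y (Sum.inr (Sum.inr 1)) : ℚ) = (m : ℤ) * φ w'.2 := hy _
      ext i
      · have r := rel1 i
        simp only [Fin.sum_univ_two] at r
        have : ((y (Sum.inr (Sum.inl (P.1 i))) - y (Sum.inr (Sum.inl i)) +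
            y (Sum.inr (Sum.inr 0)) : ℤ) : ℚ) =
            ((y (Sum.inl 0) * (z 0).1.1 i + y (Sum.inl 1) * (z 1).1.1 i : ℤ) : ℚ) := by
          push_cast
          rw [hyc, hyc, hyf, hyf, hy0]
          linear_combination (-(m : ℤ) : ℚ) * r
        have := Int.cast_injective this
        simpa [dl, cst, Fin.sum_univ_two] using this
      · have r := rel2 i
        simp only [Fin.sum_univ_two] at r
        have : ((y (Sum.inr (Sum.inl (P.2 i))) - y (Sum.inr (Sum.inl i)) +
            y (Sum.inr (Sum.inr 1)) : ℤ) : ℚ) =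
            ((y (Sum.inl 0) * (z 0).1.2 i + y (Sum.inl 1) * (z 1).1.2 i : ℤ) : ℚ) := by
          push_cast
          rw [hyc, hyc, hyf, hyf, hy1]
          linear_combination (-(m : ℤ) : ℚ) * r
        have := Int.cast_injective this
        simpa [dl, cst, Fin.sum_univ_two] using this
    have hrel : ∑ j, y (Sum.inl j) • b j = 0 := by
      have h1 : (Submodule.Quotient.mk (∑ j, y (Sum.inl j) • z j) : Qt P) = 0 := by
        rw [Submodule.Quotient.mk_eq_zero]
        change ((∑ j, y (Sum.inl j) • z j : Zc P) : Coch α ℤ) ∈ Bc P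
        simpa using hmem
      rw [← h1, ← Submodule.mkQ_apply, map_sum]
      refine Finset.sum_congr rfl fun j _ => ?_
      rw [← hz j, map_zsmul]
      rfl
    have hlin := Fintype.linearIndependent_iff.1 b.linearIndependent (fun j => y (Sum.inl j)) hrel
    intro j
    have h1 := hlin j
    have h2 := hy (Sum.inl j)
    rw [h1] at h2
    have h3 : (m : ℤ) * φ (c j) = (0 : ℚ) := by simpa [g] using h2.symm
    have h4 : ((m : ℤ) : ℚ) ≠ 0 := by exact_mod_cast hm0
    exact (mul_eq_zero.1 h3).resolve_left h4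
  ext j
  exact (Module.forall_dual_apply_eq_zero_iff ℚ (c j)).1 (fun φ => key φ j)

end Q198.Orig
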