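import Mathlib

/-! # Cochains on a square-tiled surface and their transport under positive moves -/

namespace Q198.Orig

open Finset

variable {α : Type*}

/-- An elementary positive move: `true` is `v := v h`, `false` is `h := h v`. -/
def step (g : Bool) (P : Equiv.Perm α × Equiv.Perm α) : Equiv.Perm α × Equiv.Perm α :=
  if g then (P.1, P.2 * P.1) else (P.1 * P.2, P.2)

/-- A word of moves, the head acting first. -/
def run : List Bool → Equiv.Perm α × Equiv.Perm α → Equiv.Perm α × Equiv.Perm α
  | [], P => P
  | g :: p, P => run p (step g P)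

/-- Pairs of functions: values on the horizontal and on the vertical edges. -/
abbrev Coch (α R : Type*) := (α → R) × (α → R)

/-- Transport of cochains under a move. -/
def stepE (R : Type*) [CommRing R] (g : Bool) (P : Equiv.Perm α × Equiv.Perm α) :
    Coch α R ≃ₗ[R] Coch α R :=
  if g then
    { toFun := fun x => (x.1, fun i => x.1 i + x.2 (P.1 i))
      invFun := fun x => (x.1, fun i => x.2 (P.1⁻¹ i) - x.1 (P.1⁻¹ i))
      map_add' := fun x y => by ext i <;> simp; ring
      map_smul' := fun c x => by ext i <;> simp; ring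
      left_inv := fun x => by ext i <;> simp
      right_inv := fun x => by ext i <;> simp }
  else
    { toFun := fun x => (fun i => x.2 i + x.1 (P.2 i), x.2)
      invFun := fun x => (fun i => x.1 (P.2⁻¹ i) - x.2 (P.2⁻¹ i), x.2)
      map_add' := fun x y => by ext i <;> simp; ring
      map_smul' := fun c x => by ext i <;> simp; ring
      left_inv := fun x => by ext i <;> simp
      right_inv := fun x => by ext i <;> simp }

@[simp] lemma stepE_true (R : Type*) [CommRing R] (P : Equiv.Perm α × Equiv.Perm α)
    (x : Coch α R) : stepE R true P x = (x.1, fun i => x.1 i + x.2 (P.1 i)) := rfl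

@[simp] lemma stepE_false (R : Type*) [CommRing R] (P : Equiv.Perm α × Equiv.Perm α)
    (x : Coch α R) : stepE R false P x = (fun i => x.2 i + x.1 (P.2 i), x.2) := rfl

@[simp] lemma step_true (P : Equiv.Perm α × Equiv.Perm α) : step true P = (P.1, P.2 * P.1) := rfl
@[simp] lemma step_false (P : Equiv.Perm α × Equiv.Perm α) : step false P = (P.1 * P.2, P.2) := rfl

/-- Transport along a word. -/
def runE (R : Type*) [CommRing R] : List Bool → Equiv.Perm α × Equiv.Perm α →
    (Coch α R ≃ₗ[R] Coch α R)
  | [], _ => LinearEquiv.refl R _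
  | g :: p, P => (stepE R g P).trans (runE R p (step g P))

@[simp] lemma runE_nil (R : Type*) [CommRing R] (P : Equiv.Perm α × Equiv.Perm α)
    (x : Coch α R) : runE R [] P x = x := rfl
@[simp] lemma runE_cons (R : Type*) [CommRing R] (g : Bool) (p : List Bool)
    (P : Equiv.Perm α × Equiv.Perm α) (x : Coch α R) :
    runE R (g :: p) P x = runE R p (step g P) (stepE R g P x) := rfl
@[simp] lemma run_nil (P : Equiv.Perm α × Equiv.Perm α) : run [] P = P := rfl
@[simp] lemma run_cons (g : Bool) (p : List Bool) (P : Equiv.Perm α × Equiv.Perm α) :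
    run (g :: p) P = run p (step g P) := rfl

/-- Action of a move on a pair of numbers. -/
def am {R : Type*} [CommRing R] (g : Bool) (u : R × R) : R × R :=
  if g then (u.1, u.1 + u.2) else (u.1 + u.2, u.2)

/-- Action of a word on a pair of numbers. -/
def rm {R : Type*} [CommRing R] : List Bool → R × R → R × R
  | [], u => u
  | g :: p, u => rm p (am g u)

/-- Constant cochain. -/
def cst {R : Type*} (u : R × R) : Coch α R := (fun _ => u.1, fun _ => u.2)

/-- Coboundary. -/
def dl {R : Type*} [CommRing R] (P : Equiv.Perm α × Equiv.Perm α) (f : α → R) : Coch α R :=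
  (fun i => f (P.1 i) - f i, fun i => f (P.2 i) - f i)

/-- The total sums. -/
def sm {R : Type*} [CommRing R] [Fintype α] (x : Coch α R) : R × R := (∑ i, x.1 i, ∑ i, x.2 i)

/-- The defect around a vertex. -/
def D {R : Type*} [CommRing R] (P : Equiv.Perm α × Equiv.Perm α) (x : Coch α R) (i : α) : R :=
  x.1 i + x.2 (P.1 i) - x.2 i - x.1 (P.2 i)

/-- The places where the two permutations do not commute. -/
def nc (P : Equiv.Perm α × Equiv.Perm α) (i : α) : Prop := P.1 (P.2 i) ≠ P.2 (P.1 i)

/-- The change of base point. -/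
def tr : List Bool → Equiv.Perm α × Equiv.Perm α → Equiv.Perm α
  | [], _ => 1
  | g :: p, P => (if g then P.1 else P.2) * tr p (step g P)

lemma runE_cst {R : Type*} [CommRing R] (p : List Bool) (P : Equiv.Perm α × Equiv.Perm α)
    (u : R × R) : runE R p P (cst u) = cst (rm p u) := by
  induction p generalizing P u with
  | nil => rfl
  | cons g p ih =>
    rw [runE_cons, rm, ← ih (step g P)]
    congr 1
    cases g <;> simp [cst, am, add_comm]

lemma runE_dl {R : Type*} [CommRing R] (p : List Bool) (P : Equiv.Perm α × Equiv.Perm α)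
    (f : α → R) : runE R p P (dl P f) = dl (run p P) f := by
  induction p generalizing P with
  | nil => rfl
  | cons g p ih =>
    rw [runE_cons, run_cons, ← ih (step g P)]
    congr 1
    cases g <;> simp [dl]

lemma sm_runE {R : Type*} [CommRing R] [Fintype α] (p : List Bool)
    (P : Equiv.Perm α × Equiv.Perm α) (x : Coch α R) : sm (runE R p P x) = rm p (sm x) := by
  induction p generalizing P x with
  | nil => rfl
  | cons g p ih =>
    rw [runE_cons, rm, ih (step g P)]
    congr 1
    cases g
    · simp only [sm, stepE_false, am]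
      have := Equiv.sum_comp P.2 x.1
      simp [sum_add_distrib, this, add_comm]
    · simp only [sm, stepE_true, am]
      have := Equiv.sum_comp P.1 x.2
      simp [sum_add_distrib, this]

lemma D_runE {R : Type*} [CommRing R] (p : List Bool) (P : Equiv.Perm α × Equiv.Perm α)
    (x : Coch α R) (i : α) : D (run p P) (runE R p P x) i = D P x (tr p P i) := by
  induction p generalizing P x with
  | nil => rfl
  | cons g p ih =>
    rw [runE_cons, run_cons, ih (step g P)]
    cases g <;> simp [D, tr] <;> ring

lemma nc_run (p : List Bool) (P : Equiv.Perm α × Equiv.Perm α) (i : α) :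
    nc (run p P) i ↔ nc P (tr p P i) := by
  induction p generalizing P with
  | nil => rfl
  | cons g p ih =>
    rw [run_cons, ih (step g P)]
    cases g <;> simp [nc, tr]

lemma D_dl {R : Type*} [CommRing R] (P : Equiv.Perm α × Equiv.Perm α) (f : α → R) (i : α)
    (h : ¬ nc P i) : D P (dl P f) i = 0 := by
  have h' : P.1 (P.2 i) = P.2 (P.1 i) := by simpa [nc] using h
  simp only [D, dl, h']; ring

lemma D_cst {R : Type*} [CommRing R] (P : Equiv.Perm α × Equiv.Perm α) (u : R × R) (i : α) :
    D P (cst u) i = 0 := by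
  simp [D, cst]

lemma D_add {R : Type*} [CommRing R] (P : Equiv.Perm α × Equiv.Perm α) (x y : Coch α R) (i : α) :
    D P (x + y) i = D P x i + D P y i := by
  simp [D]; ring

lemma D_smul {R : Type*} [CommRing R] (P : Equiv.Perm α × Equiv.Perm α) (c : R) (x : Coch α R)
    (i : α) : D P (c • x) i = c * D P x i := by
  simp [D]; ring

/-- Relabelling. -/
def pull (R : Type*) [CommRing R] (σ : Equiv.Perm α) : Coch α R ≃ₗ[R] Coch α R where
  toFun := fun x => (fun i => x.1 (σ i), fun i => x.2 (σ i))
  invFun := fun x => (fun i => x.1 (σ⁻¹ i), fun i => x.2 (σ⁻¹ i))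
  map_add' := fun x y => by ext i <;> simp
  map_smul' := fun c x => by ext i <;> simp
  left_inv := fun x => by ext i <;> simp
  right_inv := fun x => by ext i <;> simp

@[simp] lemma pull_apply (R : Type*) [CommRing R] (σ : Equiv.Perm α) (x : Coch α R) :
    pull R σ x = (fun i => x.1 (σ i), fun i => x.2 (σ i)) := rfl

/-- The operator attached to a word and a relabelling. -/
def Bop (R : Type*) [CommRing R] (p : List Bool) (P : Equiv.Perm α × Equiv.Perm α)
    (σ : Equiv.Perm α) : Coch α R ≃ₗ[R] Coch α R := (runE R p P).trans (pull R σ)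

lemma Bop_apply (R : Type*) [CommRing R] (p : List Bool) (P : Equiv.Perm α × Equiv.Perm α)
    (σ : Equiv.Perm α) (x : Coch α R) : Bop R p P σ x = pull R σ (runE R p P x) := rfl

lemma Bop_cst {R : Type*} [CommRing R] (p : List Bool) (P : Equiv.Perm α × Equiv.Perm α)
    (σ : Equiv.Perm α) (u : R × R) : Bop R p P σ (cst u) = cst (rm p u) := by
  rw [Bop_apply, runE_cst]; rfl

variable {p : List Bool} {P : Equiv.Perm α × Equiv.Perm α} {σ : Equiv.Perm α}

lemma Bop_dl {R : Type*} [CommRing R] (h : run p P = (σ * P.1 * σ⁻¹, σ * P.2 * σ⁻¹))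
    (f : α → R) : Bop R p P σ (dl P f) = dl P (fun i => f (σ i)) := by
  rw [Bop_apply, runE_dl, h]
  simp [dl]

lemma D_Bop {R : Type*} [CommRing R] (h : run p P = (σ * P.1 * σ⁻¹, σ * P.2 * σ⁻¹))
    (x : Coch α R) (i : α) : D P (Bop R p P σ x) i = D P x (tr p P (σ i)) := by
  rw [Bop_apply, ← D_runE, h]
  simp [D]

lemma nc_Bop (h : run p P = (σ * P.1 * σ⁻¹, σ * P.2 * σ⁻¹)) (i : α) :
    nc P (tr p P (σ i)) ↔ nc P i := by
  rw [← nc_run, h]
  simp [nc]

lemma sm_pull {R : Type*} [CommRing R] [Fintype α] (x : Coch α R) (σ : Equiv.Perm α) :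
    sm (pull R σ x) = sm x := by
  simp only [sm, pull_apply]
  rw [Equiv.sum_comp σ x.1, Equiv.sum_comp σ x.2]

lemma sm_Bop {R : Type*} [CommRing R] [Fintype α] (x : Coch α R) :
    sm (Bop R p P σ x) = rm p (sm x) := by
  rw [Bop_apply, sm_pull, sm_runE]

/-- The matrix of a word. -/
def mt : List Bool → Matrix (Fin 2) (Fin 2) ℤ
  | [] => 1
  | g :: p => mt p * (if g then !![1, 0; 1, 1] else !![1, 1; 0, 1])

lemma rm_eq {R : Type*} [CommRing R] (p : List Bool) (u : R × R) :
    rm p u = ((mt p 0 0 : R) * u.1 + (mt p 0 1 : R) * u.2,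
      (mt p 1 0 : R) * u.1 + (mt p 1 1 : R) * u.2) := by
  induction p generalizing u with
  | nil => simp [rm, mt]
  | cons g p ih =>
    rw [rm, ih]
    cases g <;> simp [mt, am, Matrix.mul_apply, Fin.sum_univ_two] <;> constructor <;> ring

lemma mt_det (p : List Bool) : (mt p).det = 1 := by
  induction p with
  | nil => simp [mt]
  | cons g p ih =>
    rw [mt, Matrix.det_mul, ih]
    cases g <;> simp [Matrix.det_fin_two]

lemma mt_nonneg (p : List Bool) (i j : Fin 2) : 0 ≤ mt p i j := by
  induction p generalizing i j with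
  | nil => fin_cases i <;> fin_cases j <;> simp [mt]
  | cons g p ih =>
    cases g <;> fin_cases i <;> fin_cases j <;>
      simp [mt, Matrix.mul_apply, Fin.sum_univ_two] <;>
      (try exact ih _ _) <;> exact add_nonneg (ih _ _) (ih _ _)

lemma mt_diag (p : List Bool) : 1 ≤ mt p 0 0 ∧ 1 ≤ mt p 1 1 := by
  induction p with
  | nil => simp [mt]
  | cons g p ih =>
    have h1 := mt_nonneg p 0 1
    have h2 := mt_nonneg p 1 0
    cases g <;> simp [mt, Matrix.mul_apply, Fin.sum_univ_two] <;> constructor <;> linarith [ih.1, ih.2]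

lemma mt_offT (p : List Bool) (hp : true ∈ p) : 1 ≤ mt p 1 0 := by
  induction p with
  | nil => simp at hp
  | cons g p ih =>
    have h1 := mt_nonneg p 1 0
    have h2 := (mt_diag p).2
    have h3 := mt_nonneg p 1 1
    cases g
    · simp at hp
      simpa [mt, Matrix.mul_apply, Fin.sum_univ_two] using ih hp
    · simp [mt, Matrix.mul_apply, Fin.sum_univ_two]; linarith

lemma mt_offF (p : List Bool) (hp : false ∈ p) : 1 ≤ mt p 0 1 := by
  induction p with
  | nil => simp at hp
  | cons g p ih =>
    have h1 := mt_nonneg p 0 1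
    have h2 := (mt_diag p).1
    cases g
    · simp [mt, Matrix.mul_apply, Fin.sum_univ_two]; linarith
    · simp at hp
      simpa [mt, Matrix.mul_apply, Fin.sum_univ_two] using ih hp

/-- The trace of a word with both letters is at least three. -/
lemma mt_trace (p : List Bool) (h1 : true ∈ p) (h2 : false ∈ p) : 3 ≤ mt p 0 0 + mt p 1 1 := by
  have hd := mt_det p
  rw [Matrix.det_fin_two] at hd
  have a := mt_offT p h1
  have b := mt_offF p h2
  have c := mt_diag p
  by_contra hcon
  push Not at hcon
  have e1 : mt p 0 0 = 1 := by linarith [c.1, c.2]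
  have e2 : mt p 1 1 = 1 := by linarith [c.1, c.2]
  rw [e1, e2] at hd
  nlinarith

lemma mt_trace_le (p : List Bool) : mt p 0 0 + mt p 0 1 + mt p 1 0 + mt p 1 1 ≤ 2 ^ (p.length + 1) := by
  induction p with
  | nil => simp [mt]
  | cons g p ih =>
    have h1 := mt_nonneg p 0 0
    have h2 := mt_nonneg p 0 1
    have h3 := mt_nonneg p 1 0
    have h4 := mt_nonneg p 1 1
    rw [List.length_cons, pow_succ]
    cases g <;> simp [mt, Matrix.mul_apply, Fin.sum_univ_two] <;> nlinarith

end Q198.Orig
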