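import Mathlib

/-!
# Origamis in the minimal stratum of genus two and local minors of their orbit graphs

A square-tiled surface with `n` squares is a pair of permutations of `Fin n` up to
simultaneous conjugation.
-/

namespace Q198.Orig

/-- A pair of permutations (horizontal, vertical) of `n` squares. -/
abbrev Pair (n : ℕ) := Equiv.Perm (Fin n) × Equiv.Perm (Fin n)

/-- Simultaneous conjugation of pairs of permutations. -/
def conjSetoid (n : ℕ) : Setoid (Pair n) where
  r P Q := ∃ σ : Equiv.Perm (Fin n), Q = (σ * P.1 * σ⁻¹, σ * P.2 * σ⁻¹)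
  iseqv :=
    { refl := fun P => ⟨1, by simp⟩
      symm := by
        rintro P Q ⟨σ, rfl⟩
        exact ⟨σ⁻¹, by ext <;> simp [mul_assoc]⟩
      trans := by
        rintro P Q R ⟨σ, rfl⟩ ⟨τ, rfl⟩
        exact ⟨τ * σ, by ext <;> simp [mul_assoc]⟩ }

/-- A pair of permutations of `n` squares up to simultaneous conjugation. -/
def Origami (n : ℕ) := Quotient (conjSetoid n)

/-- The origami of a pair. -/
def mk {n : ℕ} (P : Pair n) : Origami n := Quotient.mk (conjSetoid n) P

/-- `T (h, v) = (h, v h⁻¹)`. -/
def T {n : ℕ} : Origami n → Origami n :=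
  Quotient.map (fun P : Pair n => ((P.1, P.2 * P.1⁻¹) : Pair n)) (by
    rintro P Q ⟨σ, rfl⟩
    exact ⟨σ, by simp [mul_assoc]⟩)

/-- `S (h, v) = (h v⁻¹, v)`. -/
def S {n : ℕ} : Origami n → Origami n :=
  Quotient.map (fun P : Pair n => ((P.1 * P.2⁻¹, P.2) : Pair n)) (by
    rintro P Q ⟨σ, rfl⟩
    exact ⟨σ, by simp [mul_assoc]⟩)

/-- The origami is given by a pair `(h, v)` whose commutator is a 3-cycle (stratum `H(2)`) and
which generates a primitive permutation group. -/
def IsPrimitiveH2 {n : ℕ} (O : Origami n) : Prop :=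
  ∃ P : Pair n, mk P = O ∧ (P.1 * P.2 * P.1⁻¹ * P.2⁻¹).IsThreeCycle ∧
    MulAction.IsPreprimitive (Subgroup.closure {P.1, P.2}) (Fin n)

/-- The `SL(2, ℤ)`-orbit of `O`: everything reached from `O` by `T`, `S` and their inverses. -/
inductive InOrbit {n : ℕ} (O : Origami n) : Origami n → Prop
  | base : InOrbit O O
  | applyT {x : Origami n} : InOrbit O x → InOrbit O (T x)
  | applyS {x : Origami n} : InOrbit O x → InOrbit O (S x)
  | undoT {x : Origami n} : InOrbit O (T x) → InOrbit O x
  | undoS {x : Origami n} : InOrbit O (S x) → InOrbit O x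

/-- The orbit graph of `O`: vertices are the elements of the orbit, and every `x` is joined to
`T x` and to `S x`. -/
def orbitGraph {n : ℕ} (O : Origami n) : SimpleGraph {x : Origami n // InOrbit O x} :=
  SimpleGraph.fromRel (fun a b => b.1 = T a.1 ∨ b.1 = S a.1)

/-- An `L`-local `H` minor in `G`: pairwise disjoint vertex sets `B x`, each inducing a connected
subgraph with at most `L` vertices, with an edge of `G` between `B x` and `B y` whenever
`x y` is an edge of `H`. -/
def LocalMinor {V W : Type*} (H : SimpleGraph W) (G : SimpleGraph V) (L : ℕ) : Prop :=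
  ∃ B : W → Set V, (∀ x y, x ≠ y → Disjoint (B x) (B y)) ∧
    (∀ x, (G.induce (B x)).Connected ∧ (B x).encard ≤ L) ∧
    (∀ x y, H.Adj x y → ∃ a ∈ B x, ∃ b ∈ B y, G.Adj a b)

/-- The complete bipartite graph with parts of size three. -/
abbrev K33 : SimpleGraph (Fin 3 ⊕ Fin 3) := completeBipartiteGraph (Fin 3) (Fin 3)

/-- The complete graph on five vertices. -/
abbrev K5 : SimpleGraph (Fin 5) := ⊤

end Q198.Orig
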