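import Pool.Agent.Q198.Orig.Moves
import Pool.Agent.Q198.Orig.Bound

/-! # Short mixed words fix no primitive origami of `H(2)` with many squares -/

namespace Q198.Orig

open Finset

variable {n : ℕ} {P : Pair n}

lemma rel_closure {β : Type} {φ : Fin n → β}
    (h1 : ∀ i j, φ (P.1 i) = φ (P.1 j) ↔ φ i = φ j)
    (h2 : ∀ i j, φ (P.2 i) = φ (P.2 j) ↔ φ i = φ j) {g : Equiv.Perm (Fin n)}
    (hg : g ∈ Subgroup.closure {P.1, P.2}) : ∀ i j, φ (g i) = φ (g j) ↔ φ i = φ j := by
  induction hg using Subgroup.closure_induction with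
  | mem x hx =>
    rcases hx with rfl | rfl
    · exact h1
    · exact h2
  | one => intro i j; rfl
  | mul x y _ _ hx hy => intro i j; rw [Equiv.Perm.mul_apply, Equiv.Perm.mul_apply, hx, hy]
  | inv x _ hx =>
    intro i j
    rw [← hx (x⁻¹ i) (x⁻¹ j)]
    simp

lemma prim_of (hp : MulAction.IsPreprimitive (Subgroup.closure {P.1, P.2}) (Fin n)) : Prim P := by
  intro β φ h1 h2
  by_cases hinj : Function.Injective φ
  · exact Or.inl hinj
  right
  simp only [Function.Injective, not_forall] at hinj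
  obtain ⟨i, j, hij, hne⟩ := hinj
  set B : Set (Fin n) := {k | φ k = φ i} with hB
  have hblock : MulAction.IsBlock (Subgroup.closure {P.1, P.2}) B := by
    rw [MulAction.isBlock_iff_smul_eq_or_disjoint]
    intro g
    have hg := rel_closure h1 h2 g.2
    by_cases hd : φ (g.1 i) = φ i
    · left
      ext k
      constructor
      · rintro ⟨m, hm, rfl⟩
        change φ (g.1 m) = φ i
        rw [← hd, hg]; exact hm
      · intro hk
        refine ⟨g.1⁻¹ k, ?_, ?_⟩
        · change φ (g.1⁻¹ k) = φ i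
          rw [← hg]
          have e : g.1 (g.1⁻¹ k) = k := by simp
          rw [e, hd]; exact hk
        · change g.1 (g.1⁻¹ k) = k
          simp
    · right
      rw [Set.disjoint_left]
      rintro k ⟨m, hm, rfl⟩ hk
      apply hd
      have hk' : φ (g.1 m) = φ i := hk
      rw [← hk', hg]
      exact hm.symm
  rcases hp.isTrivialBlock_of_isBlock hblock with hs | hu
  · exact absurd (hs (show i ∈ B from rfl) (show j ∈ B from hij.symm)) hne
  · intro k l
    have hk : k ∈ B := by rw [hu]; trivial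
    have hl : l ∈ B := by rw [hu]; trivial
    exact hk.trans hl.symm

lemma trans_of (hp : MulAction.IsPreprimitive (Subgroup.closure {P.1, P.2}) (Fin n)) :
    Trans P := by
  intro F h1 h2
  have hG : ∀ g ∈ Subgroup.closure {P.1, P.2}, ∀ i, g i ∈ F ↔ i ∈ F := by
    intro g hg
    induction hg using Subgroup.closure_induction with
    | mem x hx =>
      rcases hx with rfl | rfl
      · exact h1
      · exact h2
    | one => intro i; rfl
    | mul x y _ _ hx hy => intro i; rw [Equiv.Perm.mul_apply, hx, hy]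
    | inv x _ hx =>
      intro i
      rw [← hx (x⁻¹ i)]
      simp
  rcases F.eq_empty_or_nonempty with h | ⟨a, ha⟩
  · exact Or.inl h
  right
  ext b
  simp only [mem_univ, iff_true]
  obtain ⟨g, hg⟩ := hp.toIsPretransitive.exists_smul_eq a b
  rw [← hg]
  exact (hG g.1 g.2 a).2 ha

lemma nc_iff_support (i : Fin n) :
    nc P i ↔ P.2 (P.1 i) ∈ (P.1 * P.2 * P.1⁻¹ * P.2⁻¹).support := by
  rw [Equiv.Perm.mem_support]
  simp [nc, Equiv.Perm.mul_apply]

lemma card_filter_nc (h3 : (P.1 * P.2 * P.1⁻¹ * P.2⁻¹).IsThreeCycle)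
    [DecidablePred (nc P)] : (univ.filter (fun i => nc P i)).card = 3 := by
  rw [← h3.card_support]
  apply Finset.card_bij (fun i _ => P.2 (P.1 i))
  · intro i hi
    exact (nc_iff_support i).1 (by simpa using hi)
  · intro i _ j _ h
    exact P.1.injective (P.2.injective h)
  · intro k hk
    refine ⟨P.1⁻¹ (P.2⁻¹ k), ?_, by simp⟩
    simp only [mem_filter, mem_univ, true_and]
    rw [nc_iff_support]
    simpa using hk

lemma card_nc (h3 : (P.1 * P.2 * P.1⁻¹ * P.2⁻¹).IsThreeCycle) :
    Nat.card {i : Fin n // ¬ nc P i} + 3 = Fintype.card (Fin n) := by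
  classical
  rw [Nat.card_eq_fintype_card, Fintype.card_subtype, ← card_filter_nc h3, add_comm,
    Finset.card_filter_add_card_filter_not]
  rfl

lemma two_nc (h3 : (P.1 * P.2 * P.1⁻¹ * P.2⁻¹).IsThreeCycle) :
    ∃ a b : Fin n, a ≠ b ∧ nc P a ∧ nc P b := by
  classical
  have h := card_filter_nc h3
  obtain ⟨a, ha, b, hb, hab⟩ := Finset.one_lt_card.1 (by rw [h]; norm_num :
    1 < (univ.filter (fun i => nc P i)).card)
  exact ⟨a, b, hab, by simpa using ha, by simpa using hb⟩

lemma run_append {α : Type*} (p q : List Bool) (P : Equiv.Perm α × Equiv.Perm α) :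
    run (p ++ q) P = run q (run p P) := by
  induction p generalizing P with
  | nil => rfl
  | cons g t ih => simp [ih]

lemma mv_mk (g : Bool) (P : Pair n) : mv g (mk P) = mk (step g P) := by
  cases g <;> rfl

lemma evX_mk (l : List Bool) (P : Pair n) : evX l (mk P) = mk (run l.reverse P) := by
  induction l with
  | nil => rfl
  | cons g t ih =>
    rw [evX, ih, mv_mk, List.reverse_cons, run_append]
    rfl

/-- A mixed word fixing a primitive origami of `H(2)` bounds the number of squares. -/
theorem no_fix {x : Origami n} (hx : IsPrimitiveH2 x) {l : List Bool} (ht : true ∈ l)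
    (hf : false ∈ l) {k : ℕ} (hl : l.length ≤ k) (hfix : evX l x = x) : n ≤ 2 ^ (k + 2) := by
  obtain ⟨P, rfl, h3, hp⟩ := hx
  rw [evX_mk] at hfix
  obtain ⟨σ, hσ⟩ : ∃ σ : Equiv.Perm (Fin n), run l.reverse P = (σ * P.1 * σ⁻¹, σ * P.2 * σ⁻¹) :=
    Quotient.exact hfix.symm
  have hb := hyp_bound (p := l.reverse) (by simpa using ht) (by simpa using hf) hσ (prim_of hp)
    (trans_of hp) (two_nc h3) (card_nc h3)
  have h1 := mt_trace_le l.reverse
  have h2 := mt_nonneg l.reverse 0 1
  have h4 := mt_nonneg l.reverse 1 0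
  rw [Matrix.trace_fin_two, Fintype.card_fin] at hb
  rw [List.length_reverse] at h1
  have h5 : (2 : ℤ) ^ (l.length + 1) ≤ 2 ^ (k + 1) := pow_le_pow_right₀ (by norm_num) (by omega)
  have h6 : (n : ℤ) ≤ 2 ^ (k + 2) := by
    rw [pow_succ 2 (k + 1)]
    linarith
  exact_mod_cast h6

end Q198.Orig
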