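import Pool.Agent.Q198.Orig.PF

/-! # The top eigenvalue is simple -/

namespace Q198.Orig

open Finset

variable {α : Type*} [Fintype α]
variable {p : List Bool} {P : Equiv.Perm α × Equiv.Perm α} {σ : Equiv.Perm α}

lemma NN_Bop {x : Coch α ℝ} (hx : NN x) : NN (Bop ℝ p P σ x) :=
  ⟨fun i => (NN_run hx p P).1 (σ i), fun i => (NN_run hx p P).2 (σ i)⟩

/-- The data of the Perron eigenvector of a word. -/
structure Eig (p : List Bool) (lam : ℝ) (u : ℝ × ℝ) : Prop where
  one_lt : 1 < lam
  root : lam ^ 2 - ((mt p 0 0 : ℝ) + (mt p 1 1 : ℝ)) * lam + 1 = 0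
  pos1 : 0 < u.1
  pos2 : 0 < u.2
  eig : rm p u = (lam * u.1, lam * u.2)
  ker : ∀ k : ℝ × ℝ, rm p k = (lam * k.1, lam * k.2) → ∃ c : ℝ, k = (c * u.1, c * u.2)

lemma det_real (p : List Bool) :
    (mt p 0 0 : ℝ) * (mt p 1 1 : ℝ) - (mt p 0 1 : ℝ) * (mt p 1 0 : ℝ) = 1 := by
  have := mt_det p
  rw [Matrix.det_fin_two] at this
  exact_mod_cast this

lemma exists_eig (p : List Bool) (ht : true ∈ p) (hf : false ∈ p) :
    ∃ lam u, Eig p lam u := by
  set a : ℝ := (mt p 0 0 : ℝ) with ha
  set b : ℝ := (mt p 0 1 : ℝ) with hb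
  set c : ℝ := (mt p 1 0 : ℝ) with hc
  set d : ℝ := (mt p 1 1 : ℝ) with hd
  have hdet : a * d - b * c = 1 := det_real p
  have htr : 3 ≤ a + d := by
    have : ((3 : ℤ) : ℝ) ≤ ((mt p 0 0 + mt p 1 1 : ℤ) : ℝ) := Int.cast_le.2 (mt_trace p ht hf)
    push_cast at this
    exact this
  have hb1 : 1 ≤ b := by
    have : ((1 : ℤ) : ℝ) ≤ ((mt p 0 1 : ℤ) : ℝ) := Int.cast_le.2 (mt_offF p hf)
    push_cast at this
    exact this
  have hc1 : 1 ≤ c := by
    have : ((1 : ℤ) : ℝ) ≤ ((mt p 1 0 : ℤ) : ℝ) := Int.cast_le.2 (mt_offT p ht)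
    push_cast at this
    exact this
  set τ := a + d with hτ
  set s := Real.sqrt (τ ^ 2 - 4) with hs
  have hnn : 0 ≤ τ ^ 2 - 4 := by nlinarith
  have hss : s ^ 2 = τ ^ 2 - 4 := Real.sq_sqrt hnn
  have hs0 : 0 < s := Real.sqrt_pos.2 (by nlinarith)
  have hroot : ((τ + s) / 2) ^ 2 - τ * ((τ + s) / 2) + 1 = 0 := by nlinarith
  have hgt : a < (τ + s) / 2 := by
    by_contra hcon
    push Not at hcon
    have h1 : s ≤ a - d := by rw [hτ] at hcon; linarith
    have h2 : s ^ 2 ≤ (a - d) ^ 2 := by nlinarith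
    rw [hss, hτ] at h2
    nlinarith
  refine ⟨(τ + s) / 2, (b, (τ + s) / 2 - a), ?_, hroot, by simpa using by linarith, by simpa using hgt, ?_, ?_⟩
  · nlinarith
  · rw [rm_eq]
    simp only [← ha, ← hb, ← hc, ← hd]
    ext
    · simp; ring
    · simp only
      nlinarith
  · intro k hk
    rw [rm_eq] at hk
    simp only [← ha, ← hb, ← hc, ← hd, Prod.mk.injEq] at hk
    refine ⟨k.1 / b, ?_⟩
    have hb0 : b ≠ 0 := by linarith
    ext
    · simp [hb0]
    · simp only
      field_simp
      linarith [hk.1]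

/-- Every real eigenvalue has absolute value at most `lam`. -/
lemma top_gt [Nonempty α] {lam : ℝ} {u : ℝ × ℝ} (hE : Eig p lam u) {μ : ℝ} (hμ : lam < |μ|)
    {x : Coch α ℝ} (hx : Bop ℝ p P σ x = μ • x) : x = 0 := by
  obtain ⟨e0, -, he0⟩ := Finset.exists_max_image (Finset.univ : Finset (α ⊕ α))
    (Sum.elim (fun i => |x.1 i| / u.1) (fun i => |x.2 i| / u.2))
    ⟨Sum.inl (Classical.arbitrary α), Finset.mem_univ _⟩
  set t := Sum.elim (fun i => |x.1 i| / u.1) (fun i => |x.2 i| / u.2) e0 with htdef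
  have b1 : ∀ i, |x.1 i| ≤ t * u.1 := fun i => by
    have := he0 (Sum.inl i) (Finset.mem_univ _)
    rw [Sum.elim_inl, div_le_iff₀ hE.pos1] at this
    exact this
  have b2 : ∀ i, |x.2 i| ≤ t * u.2 := fun i => by
    have := he0 (Sum.inr i) (Finset.mem_univ _)
    rw [Sum.elim_inr, div_le_iff₀ hE.pos2] at this
    exact this
  have n1 : NN (cst (t * u.1, t * u.2) - x) :=
    ⟨fun i => by simpa [cst] using le_trans (le_abs_self _) (b1 i),
     fun i => by simpa [cst] using le_trans (le_abs_self _) (b2 i)⟩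
  have n2 : NN (cst (t * u.1, t * u.2) + x) :=
    ⟨fun i => by have := neg_abs_le (x.1 i); simp [cst]; linarith [b1 i],
     fun i => by have := neg_abs_le (x.2 i); simp [cst]; linarith [b2 i]⟩
  have hk : rm p (t * u.1, t * u.2) = (t * lam * u.1, t * lam * u.2) := by
    have := hE.eig
    rw [rm_eq] at this ⊢
    simp only [Prod.mk.injEq] at this ⊢
    constructor
    · linear_combination t * this.1
    · linear_combination t * this.2
  have m1 := NN_Bop (p := p) (P := P) (σ := σ) n1
  have m2 := NN_Bop (p := p) (P := P) (σ := σ) n2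
  rw [map_sub, Bop_cst, hx, hk] at m1
  rw [map_add, Bop_cst, hx, hk] at m2
  have c1 : ∀ i, |μ| * |x.1 i| ≤ t * lam * u.1 := fun i => by
    have h1 := m1.1 i
    have h2 := m2.1 i
    simp [cst] at h1 h2
    rw [← abs_mul]
    exact abs_le.2 ⟨by linarith, by linarith⟩
  have c2 : ∀ i, |μ| * |x.2 i| ≤ t * lam * u.2 := fun i => by
    have h1 := m1.2 i
    have h2 := m2.2 i
    simp [cst] at h1 h2
    rw [← abs_mul]
    exact abs_le.2 ⟨by linarith, by linarith⟩
  have ht0 : 0 ≤ t := by
    rw [htdef]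
    rcases e0 with i | i
    · exact div_nonneg (abs_nonneg _) hE.pos1.le
    · exact div_nonneg (abs_nonneg _) hE.pos2.le
  have htle : t = 0 := by
    by_contra hne
    have hpos : 0 < t := lt_of_le_of_ne ht0 (Ne.symm hne)
    rcases e0 with i | i
    · have e : |x.1 i| = t * u.1 := by
        rw [htdef, Sum.elim_inl]; field_simp [hE.pos1.ne']
      have := c1 i
      rw [e] at this
      have h3 : (0:ℝ) < t * u.1 := mul_pos hpos hE.pos1
      nlinarith
    · have e : |x.2 i| = t * u.2 := by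
        rw [htdef, Sum.elim_inr]; field_simp [hE.pos2.ne']
      have := c2 i
      rw [e] at this
      have h3 : (0:ℝ) < t * u.2 := mul_pos hpos hE.pos2
      nlinarith
  ext i
  · have := b1 i
    rw [htle, zero_mul] at this
    simpa using this
  · have := b2 i
    rw [htle, zero_mul] at this
    simpa using this

/-- One sided estimate used twice. -/
lemma top_eq_aux [Nonempty α] {lam : ℝ} {u : ℝ × ℝ} (hE : Eig p lam u) {κ : ℝ}
    {x : Coch α ℝ} (hx : Bop ℝ p P σ x = lam • x + cst (κ * u.1, κ * u.2)) :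
    κ ≤ 0 ∧ ∃ t : ℝ, NN (cst (t * u.1, t * u.2) - x) ∧
      ((∃ i, (cst (t * u.1, t * u.2) - x).1 i = 0) ∨
        ∃ i, (cst (t * u.1, t * u.2) - x).2 i = 0) := by
  obtain ⟨e0, -, he0⟩ := Finset.exists_max_image (Finset.univ : Finset (α ⊕ α))
    (Sum.elim (fun i => x.1 i / u.1) (fun i => x.2 i / u.2))
    ⟨Sum.inl (Classical.arbitrary α), Finset.mem_univ _⟩
  set t := Sum.elim (fun i => x.1 i / u.1) (fun i => x.2 i / u.2) e0 with htdef
  have b1 : ∀ i, x.1 i ≤ t * u.1 := fun i => by
    have := he0 (Sum.inl i) (Finset.mem_univ _)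
    rw [Sum.elim_inl, div_le_iff₀ hE.pos1] at this
    exact this
  have b2 : ∀ i, x.2 i ≤ t * u.2 := fun i => by
    have := he0 (Sum.inr i) (Finset.mem_univ _)
    rw [Sum.elim_inr, div_le_iff₀ hE.pos2] at this
    exact this
  have n1 : NN (cst (t * u.1, t * u.2) - x) :=
    ⟨fun i => by simpa [cst] using b1 i, fun i => by simpa [cst] using b2 i⟩
  have hk : rm p (t * u.1, t * u.2) = (t * lam * u.1, t * lam * u.2) := by
    have := hE.eig
    rw [rm_eq] at this ⊢
    simp only [Prod.mk.injEq] at this ⊢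
    constructor
    · linear_combination t * this.1
    · linear_combination t * this.2
  have m1 := NN_Bop (p := p) (P := P) (σ := σ) n1
  rw [map_sub, Bop_cst, hx, hk] at m1
  have hz : (∃ i, (cst (t * u.1, t * u.2) - x).1 i = 0) ∨
        ∃ i, (cst (t * u.1, t * u.2) - x).2 i = 0 := by
    rcases e0 with i | i
    · left; refine ⟨i, ?_⟩
      have e : x.1 i = t * u.1 := by
        rw [htdef, Sum.elim_inl]; field_simp [hE.pos1.ne']
      simp [cst, e]
    · right; refine ⟨i, ?_⟩
      have e : x.2 i = t * u.2 := by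
        rw [htdef, Sum.elim_inr]; field_simp [hE.pos2.ne']
      simp [cst, e]
  refine ⟨?_, t, n1, hz⟩
  rcases hz with ⟨i, hi⟩ | ⟨i, hi⟩
  · have h1 := m1.1 i
    simp [cst] at h1 hi
    have h2 : x.1 i = t * u.1 := by linarith
    rw [h2] at h1
    have h3 : κ * u.1 ≤ 0 := by nlinarith
    by_contra hcon
    push Not at hcon
    have := mul_pos hcon hE.pos1
    linarith
  · have h1 := m1.2 i
    simp [cst] at h1 hi
    have h2 : x.2 i = t * u.2 := by linarith
    rw [h2] at h1
    have h3 : κ * u.2 ≤ 0 := by nlinarith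
    by_contra hcon
    push Not at hcon
    have := mul_pos hcon hE.pos2
    linarith

/-- A generalised eigen-cochain for the top eigenvalue is constant. -/
lemma top_eq [Nonempty α] [DecidableEq α] (ht : true ∈ p) (hf : false ∈ p) (hT : Trans P)
    {lam : ℝ} {u : ℝ × ℝ} (hE : Eig p lam u) {κ : ℝ}
    {x : Coch α ℝ} (hx : Bop ℝ p P σ x = lam • x + cst (κ * u.1, κ * u.2)) :
    ∃ w : ℝ × ℝ, x = cst w := by
  obtain ⟨h1, t, hn, hz⟩ := top_eq_aux hE hx
  have hx' : Bop ℝ p P σ (-x) = lam • (-x) + cst ((-κ) * u.1, (-κ) * u.2) := by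
    rw [map_neg, hx]
    ext i <;> simp [cst] <;> ring
  obtain ⟨h2, -⟩ := top_eq_aux hE hx'
  have hκ : κ = 0 := by linarith
  subst hκ
  have hk : rm p (t * u.1, t * u.2) = (t * lam * u.1, t * lam * u.2) := by
    have := hE.eig
    rw [rm_eq] at this ⊢
    simp only [Prod.mk.injEq] at this ⊢
    constructor
    · linear_combination t * this.1
    · linear_combination t * this.2
  have he : Bop ℝ p P σ (cst (t * u.1, t * u.2) - x) = lam • (cst (t * u.1, t * u.2) - x) := by
    rw [map_sub, Bop_cst, hx, hk]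
    ext i <;> simp [cst] <;> ring
  have := zero_of_zero ht hf hT (by linarith [hE.one_lt]) hn he hz
  exact ⟨(t * u.1, t * u.2), (sub_eq_zero.1 this).symm⟩

omit [Fintype α] in
lemma dl_add (P : Equiv.Perm α × Equiv.Perm α) (f g : α → ℝ) : dl P (f + g) = dl P f + dl P g := by
  ext i <;> simp [dl] <;> ring

omit [Fintype α] in
lemma dl_smul (P : Equiv.Perm α × Equiv.Perm α) (c : ℝ) (f : α → ℝ) :
    dl P (c • f) = c • dl P f := by
  ext i <;> simp [dl] <;> ring

/-- Solve `g ∘ σ - μ g = f`. -/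
lemma solve_perm [Nonempty α] (σ : Equiv.Perm α) {μ : ℝ} (hμ : 1 < |μ|) (f : α → ℝ) :
    ∃ g : α → ℝ, ∀ i, g (σ i) - μ * g i = f i := by
  let φ : (α → ℝ) →ₗ[ℝ] (α → ℝ) :=
    { toFun := fun g i => g (σ i) - μ * g i
      map_add' := fun g k => by ext i; simp; ring
      map_smul' := fun c g => by ext i; simp; ring }
  have hinj : Function.Injective φ := by
    rw [← LinearMap.ker_eq_bot, LinearMap.ker_eq_bot']
    intro g hg
    have hg' : ∀ i, g (σ i) = μ * g i := fun i => by
      have := congrFun hg i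
      simp [φ] at this
      linarith
    obtain ⟨i0, -, hi0⟩ := Finset.exists_max_image (Finset.univ : Finset α) (fun i => |g i|)
      ⟨Classical.arbitrary α, Finset.mem_univ _⟩
    have h1 := hi0 (σ i0) (Finset.mem_univ _)
    rw [hg' i0, abs_mul] at h1
    have h2 : |g i0| = 0 := by
      by_contra hne
      have hpos : 0 < |g i0| := lt_of_le_of_ne (abs_nonneg _) (Ne.symm hne)
      nlinarith
    ext i
    have := hi0 i (Finset.mem_univ _)
    rw [h2] at this
    simpa using this
  obtain ⟨g, hg⟩ := (LinearMap.injective_iff_surjective.1 hinj) f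
  exact ⟨g, fun i => congrFun hg i⟩

/-- Eigen-cochains modulo boundaries are boundaries. -/
theorem mem_bd [Nonempty α] [DecidableEq α] (ht : true ∈ p) (hf : false ∈ p) (hT : Trans P)
    (h : run p P = (σ * P.1 * σ⁻¹, σ * P.2 * σ⁻¹))
    {lam : ℝ} {u : ℝ × ℝ} (hE : Eig p lam u) {μ : ℝ} (hμ : lam < |μ| ∨ μ = lam)
    {x : Coch α ℝ} {f : α → ℝ} {w : ℝ × ℝ}
    (hx : Bop ℝ p P σ x = μ • x + dl P f + cst w) :
    ∃ (f' : α → ℝ) (w' : ℝ × ℝ), x = dl P f' + cst w' := by
  have h1μ : 1 < |μ| := by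
    rcases hμ with h1 | h1
    · exact lt_trans hE.one_lt h1
    · rw [h1, abs_of_pos (by linarith [hE.one_lt])]; exact hE.one_lt
  obtain ⟨g, hg⟩ := solve_perm σ h1μ f
  set a : ℝ := (mt p 0 0 : ℝ) with ha
  set b : ℝ := (mt p 0 1 : ℝ) with hb
  set c : ℝ := (mt p 1 0 : ℝ) with hc
  set d : ℝ := (mt p 1 1 : ℝ) with hd
  have hdet : a * d - b * c = 1 := det_real p
  have hroot := hE.root
  rw [← ha, ← hd] at hroot
  have key : ∀ w' : ℝ × ℝ, Bop ℝ p P σ (x - dl P g - cst w') =
      μ • (x - dl P g - cst w') +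
        cst (w.1 + μ * w'.1 - (rm p w').1, w.2 + μ * w'.2 - (rm p w').2) := by
    intro w'
    rw [map_sub, map_sub, hx, Bop_dl h, Bop_cst]
    have hf' : f = fun i => g (σ i) - μ * g i := by ext i; rw [hg]
    rw [hf']
    ext i <;> simp [dl, cst] <;> ring
  rcases hμ with h1 | h1
  · -- strictly larger
    set δ := μ ^ 2 - (a + d) * μ + 1 with hδ
    have hδ0 : δ ≠ 0 := by
      have hl := hE.one_lt
      have hfac : δ = (μ - lam) * (μ - ((a + d) - lam)) := by
        rw [hδ]; nlinarith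
      have hinv : (a + d) - lam = 1 / lam := by
        field_simp
        nlinarith
      rw [hfac, hinv]
      have hlt : 1 / lam < 1 := by rw [div_lt_one (by linarith)]; exact hl
      have hpos' : 0 < 1 / lam := by positivity
      apply mul_ne_zero
      · intro h0
        have : μ = lam := by linarith
        rw [this, abs_of_pos (by linarith)] at h1
        exact lt_irrefl _ h1
      · intro h0
        have : μ = 1 / lam := by linarith
        rw [this, abs_of_pos hpos'] at h1
        linarith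
    -- w' = -(M - τ + μ) w / δ
    set w' : ℝ × ℝ := (-(a * w.1 + b * w.2 + (μ - (a + d)) * w.1) / δ,
      -(c * w.1 + d * w.2 + (μ - (a + d)) * w.2) / δ) with hw'
    have hk := key w'
    have hz : (w.1 + μ * w'.1 - (rm p w').1, w.2 + μ * w'.2 - (rm p w').2) = ((0:ℝ), (0:ℝ)) := by
      rw [rm_eq]
      simp only [← ha, ← hb, ← hc, ← hd]
      ext
      · simp only [hw']
        field_simp
        rw [hδ]
        linear_combination (-w.1) * hdet
      · simp only [hw']
        field_simp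
        rw [hδ]
        linear_combination (-w.2) * hdet
    rw [hz] at hk
    have hc0 : (cst ((0:ℝ), (0:ℝ)) : Coch α ℝ) = 0 := by ext i <;> simp [cst]
    rw [hc0, add_zero] at hk
    have := top_gt hE h1 hk
    refine ⟨g, w', ?_⟩
    have h3 : x = x - dl P g - cst w' + dl P g + cst w' := by abel
    rw [h3, this, zero_add]
  · -- equal
    subst h1
    have hl := hE.one_lt
    have hinv : (a + d) - μ = 1 / μ := by
      field_simp
      nlinarith
    have hlt : 1 / μ < 1 := by rw [div_lt_one (by linarith)]; exact hl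
    set ε := μ - 1 / μ with hε
    have hε0 : ε ≠ 0 := by
      have : 0 < ε := by rw [hε]; linarith
      exact this.ne'
    set w' : ℝ × ℝ := (-w.1 / ε, -w.2 / ε) with hw'
    have hk := key w'
    -- the remaining constant is an eigenvector
    have hker : rm p (w.1 + μ * w'.1 - (rm p w').1, w.2 + μ * w'.2 - (rm p w').2) =
        (μ * (w.1 + μ * w'.1 - (rm p w').1), μ * (w.2 + μ * w'.2 - (rm p w').2)) := by
      have hεe : ε = μ - (a + d - μ) := by rw [hinv]
      rw [rm_eq, rm_eq]
      simp only [← ha, ← hb, ← hc, ← hd]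
      ext
      · simp only [hw']
        field_simp
        rw [hεe]
        linear_combination (-w.1) * hroot - w.1 * hdet
      · simp only [hw']
        field_simp
        rw [hεe]
        linear_combination (-w.2) * hroot - w.2 * hdet
    obtain ⟨κ, hκ⟩ := hE.ker _ hker
    rw [hκ] at hk
    obtain ⟨w2, hw2⟩ := top_eq ht hf hT hE hk
    refine ⟨g, w2 + w', ?_⟩
    have h3 : x = x - dl P g - cst w' + dl P g + cst w' := by abel
    rw [h3, hw2]
    ext i <;> simp [dl, cst] <;> ring

end Q198.Orig
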