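import Pool.Agent.Q198.Orig.Rank
import Pool.Agent.Q198.Orig.Top

/-! # A hyperbolic word fixing a primitive origami of `H(2)` bounds the number of squares -/

namespace Q198.Orig

open Finset Module

variable {α : Type} [Fintype α] [DecidableEq α] {P : Equiv.Perm α × Equiv.Perm α}
  {p : List Bool} {σ : Equiv.Perm α}

omit [Fintype α] [DecidableEq α] in
lemma mem_Zc_Bop (h : run p P = (σ * P.1 * σ⁻¹, σ * P.2 * σ⁻¹)) (x : Coch α ℤ) :
    Bop ℤ p P σ x ∈ Zc P ↔ x ∈ Zc P := by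
  constructor
  · intro hx i hi
    set j := σ⁻¹ ((tr p P)⁻¹ i) with hj
    have e : tr p P (σ j) = i := by simp [hj]
    have hnc : ¬ nc P j := by
      rw [← nc_Bop h j, e]; exact hi
    have := hx j hnc
    rwa [D_Bop h, e] at this
  · intro hx i hi
    rw [D_Bop h]
    exact hx _ (by rw [nc_Bop h]; exact hi)

omit [Fintype α] [DecidableEq α] in
lemma rm_surj (p : List Bool) (u : ℤ × ℤ) : ∃ u', rm p u' = u := by
  have hd := mt_det p
  rw [Matrix.det_fin_two] at hd
  refine ⟨(mt p 1 1 * u.1 - mt p 0 1 * u.2, - mt p 1 0 * u.1 + mt p 0 0 * u.2), ?_⟩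
  rw [rm_eq]
  ext
  · simp only [Int.cast_id]
    linear_combination u.1 * hd
  · simp only [Int.cast_id]
    linear_combination u.2 * hd

omit [Fintype α] [DecidableEq α] in
lemma mem_Bc_Bop (h : run p P = (σ * P.1 * σ⁻¹, σ * P.2 * σ⁻¹)) (x : Coch α ℤ) :
    Bop ℤ p P σ x ∈ Bc P ↔ x ∈ Bc P := by
  constructor
  · rintro ⟨⟨f, u⟩, hfu⟩
    obtain ⟨u', hu'⟩ := rm_surj p u
    refine ⟨(fun i => f (σ⁻¹ i), u'), ?_⟩
    apply (Bop ℤ p P σ).injective
    rw [← hfu, Th_apply, Th_apply, map_add, Bop_dl h, Bop_cst, hu']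
    simp
  · rintro ⟨⟨f, u⟩, rfl⟩
    refine ⟨(fun i => f (σ i), rm p u), ?_⟩
    rw [Th_apply, Th_apply, map_add, Bop_dl h, Bop_cst]

/-- The automorphism on cocycles. -/
noncomputable def BZ (h : run p P = (σ * P.1 * σ⁻¹, σ * P.2 * σ⁻¹)) : Zc P ≃ₗ[ℤ] Zc P :=
  LinearEquiv.ofSubmodules (Bop ℤ p P σ) (Zc P) (Zc P) (by
    ext y
    constructor
    · rintro ⟨x, hx, rfl⟩
      exact (mem_Zc_Bop h x).2 hx
    · intro hy
      refine ⟨(Bop ℤ p P σ).symm y, ?_, by simp⟩
      have := (mem_Zc_Bop h ((Bop ℤ p P σ).symm y)).1 (by simpa using hy)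
      exact this)

omit [Fintype α] [DecidableEq α] in
lemma BZ_apply (h : run p P = (σ * P.1 * σ⁻¹, σ * P.2 * σ⁻¹)) (x : Zc P) :
    (BZ h x : Coch α ℤ) = Bop ℤ p P σ x := rfl

/-- The automorphism of the lattice. -/
noncomputable def Bq (h : run p P = (σ * P.1 * σ⁻¹, σ * P.2 * σ⁻¹)) : Qt P ≃ₗ[ℤ] Qt P :=
  Submodule.Quotient.equiv _ _ (BZ h) (by
    ext y
    constructor
    · rintro ⟨x, hx, rfl⟩
      exact (mem_Bc_Bop h x.1).2 hx
    · intro hy
      refine ⟨(BZ h).symm y, ?_, by simp⟩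
      have e : Bop ℤ p P σ ((BZ h).symm y : Zc P) = y := by
        rw [← BZ_apply h]; simp
      have := (mem_Bc_Bop h (((BZ h).symm y : Zc P) : Coch α ℤ)).1 (by rw [e]; exact hy)
      exact this)

omit [Fintype α] [DecidableEq α] in
lemma Bq_mk (h : run p P = (σ * P.1 * σ⁻¹, σ * P.2 * σ⁻¹)) (x : Zc P) :
    Bq h (Submodule.Quotient.mk x) = Submodule.Quotient.mk (BZ h x) := rfl

/-- Total sums modulo the number of squares, on cocycles. -/
noncomputable def Lz (P : Equiv.Perm α × Equiv.Perm α) :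
    Zc P →ₗ[ℤ] (Fin 2 → ZMod (Fintype.card α)) where
  toFun := fun x => ![((∑ i, x.1.1 i : ℤ) : ZMod (Fintype.card α)),
    ((∑ i, x.1.2 i : ℤ) : ZMod (Fintype.card α))]
  map_add' := fun x y => by
    ext k; fin_cases k <;> simp [sum_add_distrib]
  map_smul' := fun c x => by
    ext k; fin_cases k <;> simp [mul_sum]

omit [DecidableEq α] in
lemma Lz_Bc (P : Equiv.Perm α × Equiv.Perm α) :
    (Bc P).submoduleOf (Zc P) ≤ LinearMap.ker (Lz P) := by
  rintro x ⟨⟨f, u⟩, hfu⟩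
  rw [LinearMap.mem_ker]
  have hfu' : x.1 = dl P f + cst u := hfu.symm
  have s1 : ∑ i, f (P.1 i) = ∑ i, f i := Equiv.sum_comp P.1 f
  have s2 : ∑ i, f (P.2 i) = ∑ i, f i := Equiv.sum_comp P.2 f
  ext k
  fin_cases k
  · simp [Lz, hfu', dl, cst, sum_add_distrib, ← Int.cast_sum, s1]
  · simp [Lz, hfu', dl, cst, sum_add_distrib, ← Int.cast_sum, s2]

/-- Total sums modulo the number of squares. -/
noncomputable def Lq (P : Equiv.Perm α × Equiv.Perm α) :
    Qt P →ₗ[ℤ] (Fin 2 → ZMod (Fintype.card α)) :=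
  ((Bc P).submoduleOf (Zc P)).liftQ (Lz P) (Lz_Bc P)

omit [DecidableEq α] in
lemma Lq_mk (x : Zc P) : Lq P (Submodule.Quotient.mk x) = Lz P x := rfl

omit [DecidableEq α] in
lemma Lq_Bq (h : run p P = (σ * P.1 * σ⁻¹, σ * P.2 * σ⁻¹)) (q : Qt P) :
    Lq P (Bq h q) = ((mt p).map (Int.cast : ℤ → ZMod (Fintype.card α))).mulVec (Lq P q) := by
  obtain ⟨x, rfl⟩ := Submodule.Quotient.mk_surjective _ q
  rw [Bq_mk, Lq_mk, Lq_mk]
  have hs := sm_Bop (R := ℤ) (p := p) (P := P) (σ := σ) x.1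
  rw [rm_eq] at hs
  have h1 := congrArg Prod.fst hs
  have h2 := congrArg Prod.snd hs
  simp only [sm, Int.cast_id] at h1 h2
  ext k
  fin_cases k
  · simp only [Lz, LinearMap.coe_mk, AddHom.coe_mk, BZ_apply, Matrix.mulVec, dotProduct,
      Fin.sum_univ_two, Matrix.map_apply]
    simp only [Fin.zero_eta, Matrix.cons_val_zero, Matrix.cons_val_one]
    rw [h1]; push_cast; rfl
  · simp only [Lz, LinearMap.coe_mk, AddHom.coe_mk, BZ_apply, Matrix.mulVec, dotProduct,
      Fin.sum_univ_two, Matrix.map_apply]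
    simp only [Fin.mk_one, Matrix.cons_val_zero, Matrix.cons_val_one]
    rw [h2]; push_cast; rfl

lemma Lq_surj (hP : Prim P) (hM : ∃ a b : α, a ≠ b ∧ nc P a ∧ nc P b) (u : ℤ × ℤ) :
    ∃ q : Qt P, Lq P q = ![(u.1 : ZMod (Fintype.card α)), (u.2 : ZMod (Fintype.card α))] := by
  obtain ⟨x, hx⟩ : ((0, u) : ({i : α // ¬ nc P i} → ℤ) × (ℤ × ℤ)) ∈ LinearMap.range (Psi P) := by
    rw [Psi_surj hP hM]; trivial
  have hz : x ∈ Zc P := fun i hi => congrFun (congrArg Prod.fst hx) ⟨i, hi⟩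
  refine ⟨Submodule.Quotient.mk ⟨x, hz⟩, ?_⟩
  rw [Lq_mk]
  have h2 : sm x = u := congrArg Prod.snd hx
  have h3 : ∑ i, x.1 i = u.1 := congrArg Prod.fst h2
  have h4 : ∑ i, x.2 i = u.2 := congrArg Prod.snd h2
  ext k
  fin_cases k
  · simp only [Lz, LinearMap.coe_mk, AddHom.coe_mk, h3]
    rfl
  · simp only [Lz, LinearMap.coe_mk, AddHom.coe_mk, h4]
    rfl

/-- The trace of the action on the lattice is congruent to the trace of the word. -/
theorem trace_congr (h : run p P = (σ * P.1 * σ⁻¹, σ * P.2 * σ⁻¹)) (hP : Prim P)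
    (hM : ∃ a b : α, a ≠ b ∧ nc P a ∧ nc P b) (b : Basis (Fin 2) ℤ (Qt P)) :
    (((LinearMap.toMatrix b b (Bq h).toLinearMap).trace : ℤ) : ZMod (Fintype.card α)) =
      (((mt p).trace : ℤ) : ZMod (Fintype.card α)) := by
  set N := LinearMap.toMatrix b b (Bq h).toLinearMap with hN
  let G : Matrix (Fin 2) (Fin 2) (ZMod (Fintype.card α)) := fun i j => Lq P (b j) i
  let c : ℤ → ZMod (Fintype.card α) := Int.cast
  have hcomb : ∀ v : Fin 2 → ℤ, Lq P (∑ k, v k • b k) = G.mulVec (fun k => c (v k)) := by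
    intro v
    rw [map_sum]
    ext i
    simp only [map_zsmul, Matrix.mulVec, dotProduct, Finset.sum_apply, Pi.smul_apply, G, c,
      zsmul_eq_mul]
    exact Finset.sum_congr rfl fun k _ => mul_comm _ _
  have hGN : G * N.map c = (mt p).map c * G := by
    ext i j
    have h1 : Bq h (b j) = ∑ k, N k j • b k := by
      have := b.sum_repr (Bq h (b j))
      rw [← this]
      refine Finset.sum_congr rfl fun k _ => ?_
      rw [hN, LinearMap.toMatrix_apply]
      rfl
    have h2 := Lq_Bq h (b j)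
    rw [h1, hcomb] at h2
    exact congrFun h2 i
  obtain ⟨q0, hq0⟩ := Lq_surj hP hM (1, 0)
  obtain ⟨q1, hq1⟩ := Lq_surj hP hM (0, 1)
  let C : Matrix (Fin 2) (Fin 2) (ZMod (Fintype.card α)) :=
    fun k j => c (if j = 0 then b.repr q0 k else b.repr q1 k)
  have hGC : G * C = 1 := by
    have e0 : Lq P q0 = G.mulVec (fun k => c (b.repr q0 k)) := by
      rw [← hcomb, b.sum_repr]
    have e1 : Lq P q1 = G.mulVec (fun k => c (b.repr q1 k)) := by
      rw [← hcomb, b.sum_repr]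
    rw [hq0] at e0
    rw [hq1] at e1
    ext i j
    fin_cases j
    · have := congrFun e0 i
      simp only [Matrix.mul_apply, C]
      simp only [Matrix.mulVec, dotProduct] at this
      simp only [Fin.zero_eta, if_true]
      rw [← this]
      fin_cases i <;> simp
    · have := congrFun e1 i
      simp only [Matrix.mul_apply, C]
      simp only [Matrix.mulVec, dotProduct] at this
      simp only [Fin.mk_one, one_ne_zero, if_false]
      rw [← this]
      fin_cases i <;> simp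
  have hCG : C * G = 1 := mul_eq_one_comm.1 hGC
  have e3 : N.map c = C * ((mt p).map c * G) := by
    rw [← hGN, ← mul_assoc, hCG, one_mul]
  have e4 : (N.map c).trace = ((mt p).map c).trace := by
    rw [e3, Matrix.trace_mul_comm, mul_assoc, hGC, mul_one]
  have e5 : ∀ A : Matrix (Fin 2) (Fin 2) ℤ, ((A.trace : ℤ) : ZMod (Fintype.card α)) =
      (A.map c).trace := by
    intro A
    simp [Matrix.trace, c]
  rw [e5, e5, e4]

end Q198.Orig
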