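import Pool.Agent.Q198.Orig.Cochain

/-! # The integral lattice of cocycles modulo boundaries and constants -/

namespace Q198.Orig

open Finset

variable {α : Type*} [Fintype α] [DecidableEq α]

/-- Primitivity, in the form used here. -/
def Prim (P : Equiv.Perm α × Equiv.Perm α) : Prop :=
  ∀ (β : Type) (φ : α → β), (∀ i j, φ (P.1 i) = φ (P.1 j) ↔ φ i = φ j) →
    (∀ i j, φ (P.2 i) = φ (P.2 j) ↔ φ i = φ j) → Function.Injective φ ∨ ∀ i j, φ i = φ j

/-- Cocycles. -/
def Zc (P : Equiv.Perm α × Equiv.Perm α) : Submodule ℤ (Coch α ℤ) where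
  carrier := {x | ∀ i, ¬ nc P i → D P x i = 0}
  add_mem' := fun {x y} hx hy i hi => by rw [D_add, hx i hi, hy i hi, add_zero]
  zero_mem' := fun i _ => by simp [D]
  smul_mem' := fun c x hx i hi => by rw [D_smul, hx i hi, mul_zero]

/-- Parametrisation of boundaries and constants. -/
def Th (P : Equiv.Perm α × Equiv.Perm α) : ((α → ℤ) × (ℤ × ℤ)) →ₗ[ℤ] Coch α ℤ where
  toFun := fun y => dl P y.1 + cst y.2
  map_add' := fun x y => by ext i <;> simp [dl, cst] <;> ring
  map_smul' := fun c x => by ext i <;> simp [dl, cst] <;> ring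

omit [Fintype α] [DecidableEq α] in
lemma Th_apply (P : Equiv.Perm α × Equiv.Perm α) (y : (α → ℤ) × (ℤ × ℤ)) :
    Th P y = dl P y.1 + cst y.2 := rfl

/-- Boundaries plus constants. -/
def Bc (P : Equiv.Perm α × Equiv.Perm α) : Submodule ℤ (Coch α ℤ) := LinearMap.range (Th P)

omit [Fintype α] [DecidableEq α] in
lemma Bc_le (P : Equiv.Perm α × Equiv.Perm α) : Bc P ≤ Zc P := by
  rintro _ ⟨y, rfl⟩ i hi
  rw [Th_apply, D_add, D_dl P _ i hi, D_cst, add_zero]

/-- The defects at the regular vertices together with the total sums. -/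
def Psi (P : Equiv.Perm α × Equiv.Perm α) :
    Coch α ℤ →ₗ[ℤ] (({i : α // ¬ nc P i} → ℤ) × (ℤ × ℤ)) where
  toFun := fun x => (fun i => D P x i.1, sm x)
  map_add' := fun x y => by
    ext i <;> simp [D_add, sm, sum_add_distrib]
  map_smul' := fun c x => by
    ext i
    · exact D_smul P c x i
    · simp [sm, mul_sum]
    · simp [sm, mul_sum]

variable {P : Equiv.Perm α × Equiv.Perm α}

theorem Psi_surj (hP : Prim P) (hM : ∃ a b : α, a ≠ b ∧ nc P a ∧ nc P b) :
    LinearMap.range (Psi P) = ⊤ := by
  classical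
  by_contra hne
  obtain ⟨z, hz⟩ : ∃ z, z ∉ LinearMap.range (Psi P) := by
    by_contra hcon
    push Not at hcon
    exact hne (eq_top_iff.2 fun z _ => hcon z)
  have hq : (Submodule.Quotient.mk z : _ ⧸ LinearMap.range (Psi P)) ≠ 0 := by
    rwa [Ne, Submodule.Quotient.mk_eq_zero]
  obtain ⟨c, hc⟩ := CharacterModule.exists_character_apply_ne_zero_of_ne_zero hq
  let χ : (({i : α // ¬ nc P i} → ℤ) × (ℤ × ℤ)) →+ AddCircle (1 : ℚ) :=
    (c : _ →+ AddCircle (1 : ℚ)).comp (LinearMap.range (Psi P)).mkQ.toAddMonoidHom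
  have hχz : χ z ≠ 0 := hc
  have hχ : ∀ x, χ (Psi P x) = 0 := by
    intro x
    have : (LinearMap.range (Psi P)).mkQ (Psi P x) = 0 := by
      rw [Submodule.mkQ_apply, Submodule.Quotient.mk_eq_zero]
      exact ⟨x, rfl⟩
    change (c : _ →+ AddCircle (1 : ℚ)) ((LinearMap.range (Psi P)).mkQ (Psi P x)) = 0
    rw [this, map_zero]
  let e : α → ({i : α // ¬ nc P i} → ℤ) := fun j i => if i.1 = j then 1 else 0
  let m : α → AddCircle (1 : ℚ) := fun j => χ (e j, (0, 0))
  let u1 : AddCircle (1 : ℚ) := χ (0, (1, 0))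
  let u2 : AddCircle (1 : ℚ) := χ (0, (0, 1))
  have hm0 : ∀ j, nc P j → m j = 0 := by
    intro j hj
    have : e j = 0 := by
      ext i
      simp only [e, Pi.zero_apply, ite_eq_right_iff, one_ne_zero, imp_false]
      rintro rfl
      exact i.2 hj
    simp only [m, this]
    exact map_zero χ
  have h1 : ∀ i, m (P.2 i) = m i - u1 := by
    intro i
    have hx := hχ (Pi.single (P.2 i) 1, 0)
    have hval : Psi P (Pi.single (P.2 i) 1, 0) =
        (e (P.2 i), (0, 0)) - (e i, (0, 0)) + (0, (1, 0)) := by
      ext k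
      · simp only [Psi, LinearMap.coe_mk, AddHom.coe_mk, D, e, Prod.fst_add, Prod.fst_sub,
          Pi.add_apply, Pi.sub_apply, Pi.zero_apply, Pi.single_apply]
        have : (P.2 k.1 = P.2 i) ↔ (k.1 = i) := P.2.injective.eq_iff
        simp [this]
      · simp [Psi, sm]
      · simp [Psi, sm]
    rw [hval, map_add, map_sub] at hx
    change m (P.2 i) - m i + u1 = 0 at hx
    rw [← sub_eq_zero, ← hx]; abel
  have h2 : ∀ i, m (P.1 i) = m i + u2 := by
    intro i
    have hx := hχ (0, Pi.single (P.1 i) 1)
    have hval : Psi P (0, Pi.single (P.1 i) 1) =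
        (e i, (0, 0)) - (e (P.1 i), (0, 0)) + (0, (0, 1)) := by
      ext k
      · simp only [Psi, LinearMap.coe_mk, AddHom.coe_mk, D, e, Prod.fst_add, Prod.fst_sub,
          Pi.add_apply, Pi.sub_apply, Pi.zero_apply, Pi.single_apply]
        have : (P.1 k.1 = P.1 i) ↔ (k.1 = i) := P.1.injective.eq_iff
        simp [this]
      · simp [Psi, sm]
      · simp [Psi, sm]
    rw [hval, map_add, map_sub] at hx
    change m i - m (P.1 i) + u2 = 0 at hx
    rw [← sub_eq_zero, ← neg_eq_zero, ← hx]; abel
  obtain ⟨a, b, hab, ha, hb⟩ := hM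
  have hconst : ∀ i, m i = 0 := by
    rcases hP _ m (fun i j => by rw [h2, h2]; simp) (fun i j => by rw [h1, h1]; simp) with h | h
    · exact absurd (h (by rw [hm0 a ha, hm0 b hb])) hab
    · intro i; rw [h i a, hm0 a ha]
  have hu1 : u1 = 0 := by
    have := h1 a
    rw [hconst, hconst] at this
    simpa using this
  have hu2 : u2 = 0 := by
    have := h2 a
    rw [hconst, hconst] at this
    simpa using this.symm
  have hzero : χ = 0 := by
    have hL : χ.toIntLinearMap = 0 := by
      apply LinearMap.prod_ext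
      · apply LinearMap.pi_ext'
        intro k
        apply LinearMap.ext_ring
        simp only [LinearMap.comp_apply, LinearMap.zero_comp, LinearMap.zero_apply]
        change χ (Pi.single k 1, 0) = 0
        have : (Pi.single k (1:ℤ) : {i : α // ¬ nc P i} → ℤ) = e k.1 := by
          ext l
          simp only [e, Pi.single_apply]
          by_cases h : l = k
          · simp [h]
          · have : l.1 ≠ k.1 := fun h' => h (Subtype.ext h')
            simp [h, this]
        rw [this]
        exact hconst k.1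
      · apply LinearMap.prod_ext
        · apply LinearMap.ext_ring
          simp only [LinearMap.comp_apply, LinearMap.zero_comp, LinearMap.zero_apply]
          exact hu1
        · apply LinearMap.ext_ring
          simp only [LinearMap.comp_apply, LinearMap.zero_comp, LinearMap.zero_apply]
          exact hu2
    ext x
    have := LinearMap.congr_fun hL x
    simpa using this
  exact hχz (by rw [hzero]; rfl)

end Q198.Orig
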