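import Pool.Agent.Q198.Orig.Moves

/-! # A local `K₃,₃` at a clean vertex -/

namespace Q198.Orig

section General
variable {V : Type*} {G : SimpleGraph V}

lemma chain_walk (u : V) (t : List V) (h : List.IsChain G.Adj (u :: t)) :
    ∃ (v : V) (p : G.Walk u v), p.support = u :: t := by
  induction t generalizing u with
  | nil => exact ⟨u, SimpleGraph.Walk.nil, rfl⟩
  | cons w t ih =>
    rw [List.isChain_cons_cons] at h
    obtain ⟨v, p, hp⟩ := ih w h.2
    exact ⟨v, SimpleGraph.Walk.cons h.1 p, by simp [hp]⟩

lemma conn_list (l : List V) (hne : l ≠ []) (h : List.IsChain G.Adj l) :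
    (G.induce {v | v ∈ l}).Connected := by
  obtain ⟨u, t, rfl⟩ := List.exists_cons_of_ne_nil hne
  obtain ⟨v, p, hp⟩ := chain_walk u t h
  have := p.connected_induce_support
  rwa [hp] at this

lemma minor_of_lists (L : Fin 3 ⊕ Fin 3 → List V) (hne : ∀ x, L x ≠ [])
    (hch : ∀ x, List.IsChain G.Adj (L x)) (hlen : ∀ x, (L x).length ≤ 5)
    (hdis : ∀ x y, x ≠ y → ∀ v ∈ L x, v ∉ L y)
    (hadj : ∀ i j : Fin 3, ∃ a ∈ L (Sum.inl i), ∃ b ∈ L (Sum.inr j), G.Adj a b) :
    LocalMinor K33 G 5 := by
  classical
  refine ⟨fun x => {v | v ∈ L x}, ?_, ?_, ?_⟩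
  · intro x y hxy
    rw [Set.disjoint_left]
    exact fun v hv hv' => hdis x y hxy v hv hv'
  · intro x
    refine ⟨conn_list _ (hne x) (hch x), ?_⟩
    have e : ({v | v ∈ L x} : Set V) = ((L x).toFinset : Set V) := by ext; simp
    change ({v | v ∈ L x} : Set V).encard ≤ _
    rw [e, Set.encard_coe_eq_coe_finsetCard]
    have : (L x).toFinset.card ≤ 5 := (List.toFinset_card_le _).trans (hlen x)
    exact_mod_cast this
  · intro x y hxy
    rcases x with i | i <;> rcases y with j | j
    · simp [completeBipartiteGraph] at hxy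
    · exact hadj i j
    · obtain ⟨a, ha, b, hb, hab⟩ := hadj j i
      exact ⟨b, hb, a, ha, hab.symm⟩
    · simp [completeBipartiteGraph] at hxy

end General

/-- The directed edges used: `(i, j, d)` says that a move takes vertex `(i, e)` to
`(j, e xor d)`. -/
def off : List (Fin 12 × Fin 12 × Bool) :=
  [(0, 5, true), (0, 9, true), (4, 9, true), (4, 1, false), (8, 1, false), (8, 5, false),
   (1, 3, true), (5, 7, true), (9, 11, true), (2, 3, true), (2, 0, true), (6, 4, true),
   (6, 7, false), (10, 11, true), (10, 8, true)]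

variable {n : ℕ}

/-- The twelve vertices and their half turns. -/
def ph (x : Origami n) (i : Fin 12 × Bool) : Origami n :=
  if i.2 then zX (ev rX RX (gw i.1) x) else ev rX RX (gw i.1) x

lemma off_move (x : Origami n) : ∀ t ∈ off, ∀ e : Bool,
    ph x (t.2.1, xor e t.2.2) = TiX (ph x (t.1, e)) ∨
    ph x (t.2.1, xor e t.2.2) = SiX (ph x (t.1, e)) := by
  intro t ht e
  simp only [off, List.mem_cons, List.not_mem_nil, or_false] at ht
  rcases ht with rfl | rfl | rfl | rfl | rfl | rfl | rfl | rfl | rfl | rfl | rfl | rfl | rfl | rfl | rfl <;>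
  cases e <;>
  simp [ph, gw, TiX_eq, SiX_eq, ev, act, rz, Rz, zz, rrr, RR]

lemma pr_ph (x : Origami n) (i : Fin 12 × Bool) : pr (ph x i) = ev rV RV (gw i.1) (pr x) := by
  rw [ev_pr]
  unfold ph
  split_ifs
  · exact pr_z _
  · rfl

lemma ev_z (w : List Lt) (x : Origami n) : ev rX RX w (zX x) = zX (ev rX RX w x) := by
  induction w with
  | nil => rfl
  | cons l t ih => cases l <;> simp [ev, act, ih, rz, Rz]

variable {O : Origami n}

lemma ev_orb {x : Origami n} (hx : InOrbit O x) (w : List Lt) : InOrbit O (ev rX RX w x) := by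
  induction w with
  | nil => exact hx
  | cons l t ih =>
    cases l
    · exact orb_r ih
    · exact orb_r (orb_r ih)
    · exact orb_R ih

lemma ph_orb {x : Origami n} (hx : InOrbit O x) (i : Fin 12 × Bool) : InOrbit O (ph x i) := by
  unfold ph
  split_ifs
  · exact orb_z (ev_orb hx _)
  · exact ev_orb hx _

lemma adj_of_move {a b : {x : Origami n // InOrbit O x}} (hne : a ≠ b)
    (h : b.1 = TiX a.1 ∨ b.1 = SiX a.1) : (orbitGraph O).Adj a b := by
  rw [orbitGraph, SimpleGraph.fromRel_adj]
  refine ⟨hne, Or.inr ?_⟩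
  rcases h with h | h
  · left; rw [h, T_TiX]
  · right; rw [h, S_SiX]

/-- Adjacency of the abstract picture with half turns. -/
def adjB (a b : Fin 12 × Bool) : Bool :=
  off.any (fun t => (t.1 == a.1 && t.2.1 == b.1 && b.2 == xor a.2 t.2.2) ||
    (t.1 == b.1 && t.2.1 == a.1 && a.2 == xor b.2 t.2.2))

/-- Adjacency of the abstract picture without half turns. -/
def adjA (a b : Fin 12) : Bool :=
  off.any (fun t => (t.1 == a && t.2.1 == b) || (t.1 == b && t.2.1 == a))

/-- Branch lists with half turns. -/
def LB : Fin 3 ⊕ Fin 3 → List (Fin 12 × Bool)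
  | Sum.inl 0 => [(1, false), (4, false), (9, true), (0, false), (2, true)]
  | Sum.inl 1 => [(8, true), (10, false)]
  | Sum.inl 2 => [(4, true), (6, false)]
  | Sum.inr 0 => [(5, true), (7, false)]
  | Sum.inr 1 => [(1, true), (3, false)]
  | Sum.inr 2 => [(11, true), (9, false), (0, true), (5, false), (8, false)]

/-- Branch lists without half turns. -/
def LA : Fin 3 ⊕ Fin 3 → List (Fin 12)
  | Sum.inl 0 => [0, 2]
  | Sum.inl 1 => [4, 6]
  | Sum.inl 2 => [8, 10]
  | Sum.inr 0 => [1, 3]
  | Sum.inr 1 => [5, 7]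
  | Sum.inr 2 => [9, 11]

lemma minor_transfer {ι V : Type} {G : SimpleGraph V} (adj : ι → ι → Bool) (ψ : ι → V)
    (hψ : Function.Injective ψ) (hadj : ∀ a b, adj a b = true → a ≠ b → G.Adj (ψ a) (ψ b))
    (L : Fin 3 ⊕ Fin 3 → List ι) (hne : ∀ x, L x ≠ [])
    (hch : ∀ x, List.IsChain (fun a b => adj a b = true ∧ a ≠ b) (L x))
    (hlen : ∀ x, (L x).length ≤ 5)
    (hdis : ∀ x y, x ≠ y → ∀ v ∈ L x, v ∉ L y)
    (hK : ∀ i j : Fin 3, ∃ a ∈ L (Sum.inl i), ∃ b ∈ L (Sum.inr j), adj a b = true ∧ a ≠ b) :
    LocalMinor K33 G 5 := by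
  refine minor_of_lists (fun x => (L x).map ψ) ?_ ?_ ?_ ?_ ?_
  · intro x; simpa using hne x
  · intro x
    rw [List.isChain_map]
    exact (hch x).imp (fun a b h => hadj a b h.1 h.2)
  · intro x; simpa using hlen x
  · intro x y hxy v hv hv'
    simp only [List.mem_map] at hv hv'
    obtain ⟨a, ha, rfl⟩ := hv
    obtain ⟨b, hb, hab⟩ := hv'
    rw [hψ hab] at hb
    exact hdis x y hxy a ha hb
  · intro i j
    obtain ⟨a, ha, b, hb, h1, h2⟩ := hK i j
    exact ⟨ψ a, List.mem_map_of_mem ha, ψ b, List.mem_map_of_mem hb, hadj a b h1 h2⟩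

/-- A clean vertex gives a local minor. -/
theorem minor_of_clean {x : Origami n} (hx : InOrbit O x)
    (hinj : Function.Injective (fun i => ev rV RV (gw i) (pr x))) :
    LocalMinor K33 (orbitGraph O) 5 := by
  have hfst : ∀ a b : Fin 12 × Bool, ph x a = ph x b → a.1 = b.1 := by
    intro a b hab
    apply hinj
    change ev rV RV (gw a.1) (pr x) = ev rV RV (gw b.1) (pr x)
    rw [← pr_ph, ← pr_ph, hab]
  by_cases hz : zX x = x
  · -- the half turn is trivial
    have hph : ∀ i e, ph x (i, e) = ph x (i, false) := by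
      intro i e
      cases e
      · rfl
      · change zX (ev rX RX (gw i) x) = ev rX RX (gw i) x
        rw [← ev_z, hz]
    refine minor_transfer adjA (fun i => ⟨ph x (i, false), ph_orb hx _⟩) ?_ ?_ LA
      (by decide) (by decide) (by decide) (by decide) (by decide)
    · intro i j hij
      exact hfst (i, false) (j, false) (congrArg Subtype.val hij)
    · intro a b hab hne
      rw [adjA, List.any_eq_true] at hab
      obtain ⟨t, ht, h⟩ := hab
      simp only [Bool.or_eq_true, Bool.and_eq_true, beq_iff_eq] at h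
      have hm := off_move x t ht false
      rw [hph, ] at hm
      have hinj' : ∀ i j : Fin 12, i ≠ j →
          (⟨ph x (i, false), ph_orb hx _⟩ : {y // InOrbit O y}) ≠ ⟨ph x (j, false), ph_orb hx _⟩ :=
        fun i j hij h' => hij (hfst (i, false) (j, false) (congrArg Subtype.val h'))
      rcases h with ⟨h1, h2⟩ | ⟨h1, h2⟩
      · subst h1 h2
        exact adj_of_move (hinj' _ _ hne) hm
      · subst h1 h2
        exact (adj_of_move (hinj' _ _ hne.symm) hm).symm
  · have hinj2 : Function.Injective (ph x) := by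
      intro a b hab
      have h1 := hfst a b hab
      obtain ⟨i, e⟩ := a
      obtain ⟨j, f⟩ := b
      simp only at h1
      subst h1
      have hfree : ∀ w : List Lt, zX (ev rX RX w x) ≠ ev rX RX w x := by
        intro w
        induction w with
        | nil => exact hz
        | cons l t ih =>
          cases l
          · intro h
            apply ih
            change zX (rX (ev rX RX t x)) = rX (ev rX RX t x) at h
            have h2 := congrArg (fun y => rX (rX y)) h
            simp only [rz, rrr] at h2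
            have h3 := congrArg zX h2
            simpa [zz] using h3
          · intro h
            apply ih
            change zX (rX (rX (ev rX RX t x))) = rX (rX (ev rX RX t x)) at h
            have h2 := congrArg rX h
            simp only [rz, rrr] at h2
            have h3 := congrArg zX h2
            simpa [zz] using h3
          · intro h
            apply ih
            change zX (RX (ev rX RX t x)) = RX (ev rX RX t x) at h
            have h2 := congrArg RX h
            simp only [Rz, RR] at h2
            have h3 := congrArg zX h2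
            simpa [zz] using h3
      cases e <;> cases f
      · rfl
      · exact absurd hab.symm (hfree (gw i))
      · exact absurd hab (hfree (gw i))
      · rfl
    refine minor_transfer adjB (fun i => ⟨ph x i, ph_orb hx _⟩) ?_ ?_ LB
      (by decide) (by decide) (by decide) (by decide) (by decide)
    · intro i j hij
      exact hinj2 (congrArg Subtype.val hij)
    · intro a b hab hne
      rw [adjB, List.any_eq_true] at hab
      obtain ⟨t, ht, h⟩ := hab
      simp only [Bool.or_eq_true, Bool.and_eq_true, beq_iff_eq] at h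
      have hinj' : ∀ i j : Fin 12 × Bool, i ≠ j →
          (⟨ph x i, ph_orb hx _⟩ : {y // InOrbit O y}) ≠ ⟨ph x j, ph_orb hx _⟩ :=
        fun i j hij h' => hij (hinj2 (congrArg Subtype.val h'))
      obtain ⟨a1, a2⟩ := a
      obtain ⟨b1, b2⟩ := b
      rcases h with ⟨⟨h1, h2⟩, h3⟩ | ⟨⟨h1, h2⟩, h3⟩
      · simp only at h1 h2 h3
        subst h1 h2 h3
        exact adj_of_move (hinj' _ _ hne) (off_move x t ht a2)
      · simp only at h1 h2 h3
        subst h1 h2 h3
        exact (adj_of_move (hinj' _ _ hne.symm) (off_move x t ht b2)).symm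

end Q198.Orig
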