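import Pool.Agent.Q198.Orig.Fix
import Pool.Agent.Q198.Orig.Minor

/-! # Local minors in all large orbit graphs -/

namespace Q198.Orig

variable {n : ℕ}

theorem large_minor (hn : 2 ^ 34 < n) (O : Origami n) (hO : IsPrimitiveH2 O) :
    LocalMinor K33 (orbitGraph O) 5 := by
  let Q : Vp n → Prop := fun y => ∃ x, pr x = y ∧ InOrbit O x ∧ IsPrimitiveH2 x
  have ha : ∀ y, Q y → Q (rV y) := by
    rintro _ ⟨x, rfl, h1, h2⟩
    exact ⟨rX x, rfl, orb_r h1, prim_r h2⟩
  have hc : ∀ y, Q y → Q (RV y) := by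
    rintro _ ⟨x, rfl, h1, h2⟩
    exact ⟨RX x, rfl, orb_R h1, prim_z h2⟩
  have hQ : Q (pr O) := ⟨O, rfl, InOrbit.base, hO⟩
  rcases clean_or rV3 RV2 ha hc hQ with h | h | ⟨y, l, hy, ht, hf, hl, hfix⟩
  · exact minor_of_clean InOrbit.base h
  · rw [ev_pr] at h
    exact minor_of_clean (ev_orb InOrbit.base gg) h
  · exfalso
    obtain ⟨x, rfl, -, hx⟩ := hy
    have h1 := evX_twice hfix
    have h2 := no_fix hx (l := l ++ l) (by simp [ht]) (by simp [hf]) (k := 32)
      (by simp; omega) h1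
    have : (2 : ℕ) ^ (32 + 2) = 2 ^ 34 := by norm_num
    omega

instance (n : ℕ) : Finite (Origami n) := Quotient.finite _

lemma card_origami (n : ℕ) : Nat.card (Origami n) ≤ n.factorial ^ 2 := by
  have h := Nat.card_le_card_of_surjective (mk : Pair n → Origami n) Quotient.mk_surjective
  have h2 : Nat.card (Pair n) = n.factorial ^ 2 := by
    rw [Nat.card_prod, Nat.card_perm, Nat.card_fin, pow_two]
  rwa [h2] at h

lemma minor_mono {V W : Type} {H : SimpleGraph W} {G : SimpleGraph V} {L L' : ℕ} (hL : L ≤ L')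
    (h : LocalMinor H G L) : LocalMinor H G L' := by
  obtain ⟨B, h1, h2, h3⟩ := h
  exact ⟨B, h1, fun x => ⟨(h2 x).1, (h2 x).2.trans (by exact_mod_cast hL)⟩, h3⟩

lemma minor_small {W : Type} {H : SimpleGraph W} (O : Origami n) {L L' : ℕ}
    (hL : n.factorial ^ 2 ≤ L') (h : LocalMinor H (orbitGraph O) L) :
    LocalMinor H (orbitGraph O) L' := by
  obtain ⟨B, h1, h2, h3⟩ := h
  refine ⟨B, h1, fun x => ⟨(h2 x).1, ?_⟩, h3⟩
  have h4 : (B x).encard ≤ ENat.card {x : Origami n // InOrbit O x} := Set.encard_le_card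
  have h5 : ENat.card {x : Origami n // InOrbit O x} ≤ (n.factorial ^ 2 : ℕ) := by
    rw [ENat.card_eq_coe_natCard]
    have : Nat.card {x : Origami n // InOrbit O x} ≤ Nat.card (Origami n) :=
      Nat.card_le_card_of_injective _ Subtype.val_injective
    exact_mod_cast this.trans (card_origami n)
  exact h4.trans (h5.trans (by exact_mod_cast hL))

lemma uniform (N : ℕ) (hN : ∀ n : ℕ, N < n → ∀ O : Origami n, IsPrimitiveH2 O →
      LocalMinor K33 (orbitGraph O) 5) :
    ∃ L : ℕ, ∀ (n : ℕ) (O : Origami n), IsPrimitiveH2 O →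
      (∃ L' : ℕ, LocalMinor K33 (orbitGraph O) L' ∨ LocalMinor K5 (orbitGraph O) L') →
        LocalMinor K33 (orbitGraph O) L ∨ LocalMinor K5 (orbitGraph O) L := by
  refine ⟨max 5 (N.factorial ^ 2), ?_⟩
  intro n O hO hex
  by_cases hn : N < n
  · exact Or.inl (minor_mono (le_max_left _ _) (hN n hn O hO))
  · have h1 : n.factorial ^ 2 ≤ max 5 (N.factorial ^ 2) :=
      (Nat.pow_le_pow_left (Nat.factorial_le (not_lt.1 hn)) 2).trans (le_max_right _ _)
    obtain ⟨L', h | h⟩ := hex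
    · exact Or.inl (minor_small O h1 h)
    · exact Or.inr (minor_small O h1 h)

theorem main :
    (∀ n : ℕ, 2 ^ 34 < n → ∀ O : Origami n, IsPrimitiveH2 O → LocalMinor K33 (orbitGraph O) 5) ∧
    (∃ L : ℕ, ∀ (n : ℕ) (O : Origami n), IsPrimitiveH2 O →
      (∃ L' : ℕ, LocalMinor K33 (orbitGraph O) L' ∨ LocalMinor K5 (orbitGraph O) L') →
        LocalMinor K33 (orbitGraph O) L ∨ LocalMinor K5 (orbitGraph O) L) :=
  ⟨fun n hn O hO => large_minor hn O hO, uniform (2 ^ 34) fun n hn O hO => large_minor hn O hO⟩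

end Q198.Orig
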