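import Mathlib

/-! # Words in a map of order three and an involution -/

namespace Q198.Orig

/-- Letters: `a` is a map of order three, `b` its square, `c` an involution. -/
inductive Lt | a | b | c
deriving DecidableEq

/-- The inverse letter. -/
def Lt.inv : Lt → Lt
  | .a => .b
  | .b => .a
  | .c => .c

/-- Prepend a letter to a reduced word. -/
def push : Lt → List Lt → List Lt
  | x, [] => [x]
  | .c, .c :: t => t
  | .c, y :: t => .c :: y :: t
  | .a, .a :: t => .b :: t
  | .a, .b :: t => t
  | .a, .c :: t => .a :: .c :: t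
  | .b, .a :: t => t
  | .b, .b :: t => .a :: t
  | .b, .c :: t => .b :: .c :: t

/-- The reduced form. -/
def nf (w : List Lt) : List Lt := w.foldr push []

/-- The inverse word. -/
def winv (w : List Lt) : List Lt := (w.map Lt.inv).reverse

/-- Rotation. -/
def rot : List Lt → List Lt
  | [] => []
  | x :: t => t ++ [x]

/-- Rotation followed by reduction. -/
def crot (w : List Lt) : List Lt := nf (rot w)

/-- Read a word `c a^{±1} c a^{±1} …` as a list of signs. -/
def pos : List Lt → Option (List Bool)
  | [] => some []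
  | .c :: .a :: t => (pos t).map (true :: ·)
  | .c :: .b :: t => (pos t).map (false :: ·)
  | _ => none

/-- The word is positive, uses both signs, and has length at most 16. -/
def mixedPos (w : List Lt) : Bool :=
  match pos w with
  | some l => l.contains true && l.contains false && decide (l.length ≤ 16)
  | none => false

/-- The cyclic reduction (after three rotations) is positive and mixed. -/
def hyp (w : List Lt) : Bool :=
  mixedPos (crot (crot (crot (nf w)))) || mixedPos (crot (crot (crot (crot (nf w)))))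

section
variable {V : Type} (r R : V → V)

/-- The action of a letter. -/
def act : Lt → V → V
  | .a => r
  | .b => fun y => r (r y)
  | .c => R

/-- The action of a word, the last letter acting first. -/
def ev : List Lt → V → V
  | [], y => y
  | x :: t, y => act r R x (ev t y)

/-- The action of a list of signs. -/
def evp : List Bool → V → V
  | [], y => y
  | true :: t, y => R (r (evp t y))
  | false :: t, y => R (r (r (evp t y)))

variable {r R}

lemma ev_append (u w : List Lt) (y : V) : ev r R (u ++ w) y = ev r R u (ev r R w y) := by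
  induction u with
  | nil => rfl
  | cons x t ih => simp [ev, ih]

variable (hr : ∀ y, r (r (r y)) = y) (hR : ∀ y, R (R y) = y)
include hr hR

lemma ev_push (x : Lt) (t : List Lt) (y : V) : ev r R (push x t) y = act r R x (ev r R t y) := by
  rcases t with _ | ⟨z, t⟩
  · cases x <;> rfl
  · cases x <;> cases z <;> simp [push, ev, act, hr, hR]

lemma ev_nf (w : List Lt) (y : V) : ev r R (nf w) y = ev r R w y := by
  induction w with
  | nil => rfl
  | cons x t ih =>
    rw [show nf (x :: t) = push x (nf t) from rfl, ev_push hr hR, ih]; rfl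

lemma act_inv (x : Lt) (y : V) : act r R x (act r R x.inv y) = y := by
  cases x <;> simp [act, Lt.inv, hr, hR]

lemma inv_act (x : Lt) (y : V) : act r R x.inv (act r R x y) = y := by
  cases x <;> simp [act, Lt.inv, hr, hR]

lemma ev_winv (w : List Lt) (y : V) : ev r R (winv w) (ev r R w y) = y := by
  induction w with
  | nil => rfl
  | cons x t ih =>
    rw [show winv (x :: t) = winv t ++ [x.inv] by simp [winv], ev_append]
    change ev r R (winv t) (act r R x.inv (act r R x (ev r R t y))) = y
    rw [inv_act hr hR, ih]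

variable {Q : V → Prop} (ha : ∀ y, Q y → Q (r y)) (hc : ∀ y, Q y → Q (R y))

omit hr hR in
include ha hc in
lemma act_mem (x : Lt) {y : V} (hy : Q y) : Q (act r R x y) := by
  cases x
  · exact ha _ hy
  · exact ha _ (ha _ hy)
  · exact hc _ hy

omit hr hR in
include ha hc in
lemma ev_mem (w : List Lt) {y : V} (hy : Q y) : Q (ev r R w y) := by
  induction w with
  | nil => exact hy
  | cons x t ih => exact act_mem ha hc x ih

include ha hc in
lemma crot_fix {w : List Lt} (h : ∃ y, Q y ∧ ev r R w y = y) :
    ∃ y, Q y ∧ ev r R (crot w) y = y := by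
  obtain ⟨y, hy, hw⟩ := h
  rcases w with _ | ⟨x, t⟩
  · exact ⟨y, hy, rfl⟩
  · refine ⟨act r R x.inv y, act_mem ha hc _ hy, ?_⟩
    rw [crot, ev_nf hr hR, rot, ev_append]
    change ev r R t (act r R x (act r R x.inv y)) = _
    rw [act_inv hr hR]
    have h1 : act r R x (ev r R t y) = y := hw
    calc ev r R t y = act r R x.inv (act r R x (ev r R t y)) := (inv_act hr hR _ _).symm
      _ = _ := by rw [h1]

omit hr hR in
lemma ev_pos {w : List Lt} {l : List Bool} (h : pos w = some l) (y : V) :
    ev r R w y = evp r R l y := by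
  induction w using pos.induct generalizing l with
  | case1 => simp [pos] at h; subst h; rfl
  | case2 t ih =>
    simp only [pos, Option.map_eq_some_iff] at h
    obtain ⟨l', hl', rfl⟩ := h
    simp only [ev, act, evp, ih hl']
  | case3 t ih =>
    simp only [pos, Option.map_eq_some_iff] at h
    obtain ⟨l', hl', rfl⟩ := h
    simp only [ev, act, evp, ih hl']
  | case4 w h1 h2 h3 =>
    rw [pos] at h
    · simp at h
    · exact h1
    · exact h2
    · exact h3

omit hr hR in
lemma mixedPos_sound {w : List Lt} (h : mixedPos w = true) (hf : ∃ y, Q y ∧ ev r R w y = y) :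
    ∃ y l, Q y ∧ true ∈ l ∧ false ∈ l ∧ l.length ≤ 16 ∧ evp r R l y = y := by
  obtain ⟨y, hy, hw⟩ := hf
  unfold mixedPos at h
  split at h
  · rename_i l hl
    simp only [Bool.and_eq_true, List.contains_iff_mem, decide_eq_true_eq] at h
    exact ⟨y, l, hy, h.1.1, h.1.2, h.2, by rw [← ev_pos hl, hw]⟩
  · simp at h

include ha hc in
lemma hyp_sound {w : List Lt} (h : hyp w = true) (hf : ∃ y, Q y ∧ ev r R w y = y) :
    ∃ y l, Q y ∧ true ∈ l ∧ false ∈ l ∧ l.length ≤ 16 ∧ evp r R l y = y := by
  have h0 : ∃ y, Q y ∧ ev r R (nf w) y = y := by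
    obtain ⟨y, hy, hw⟩ := hf
    exact ⟨y, hy, by rw [ev_nf hr hR, hw]⟩
  have h3 := crot_fix hr hR ha hc (crot_fix hr hR ha hc (crot_fix hr hR ha hc h0))
  rw [hyp, Bool.or_eq_true] at h
  rcases h with h | h
  · exact mixedPos_sound h h3
  · exact mixedPos_sound h (crot_fix hr hR ha hc h3)

end

/-- The twelve words describing the vertices used. -/
def gw : Fin 12 → List Lt :=
  ![[], [.c], [.a, .c], [.c, .b, .c],
    [.a], [.c, .a], [.b, .c, .a], [.c, .a, .c, .a],
    [.b], [.c, .b], [.a, .c, .b], [.c, .b, .c, .b]]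

/-- The long word used to move away. -/
def gg : List Lt := [.c, .a, .c, .a, .c, .b, .c, .a, .c]

/-- Differences of the twelve words, mixed ones. -/
def Wh : List (List Lt) :=
  [[.c, .b, .c, .a], [.c, .a, .c, .b], [.c, .b, .c, .a, .c, .a], [.c, .a, .c, .b, .c, .a],
   [.c, .a, .c, .a, .c, .b], [.b, .c, .b, .c, .b], [.b, .c, .a, .c, .b, .c, .b],
   [.b, .c, .b, .c, .a, .c, .b]]

/-- Differences of the twelve words, the others. -/
def Wn : List (List Lt) :=
  [[.c], [.a, .c], [.c, .b, .c], [.a], [.c, .a], [.b, .c, .a], [.c, .a, .c, .a], [.a, .c, .b],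
   [.c, .b, .c, .b], [.a, .c, .a], [.c, .b, .c, .b, .c], [.c, .b, .c, .b, .c, .b],
   [.b, .c, .a, .c, .a], [.b, .c, .a, .c, .b], [.b, .c, .a, .c, .a, .c, .a],
   [.a, .c, .b, .c, .b], [.a, .c, .b, .c, .b, .c, .b]]

lemma diff_mem : ∀ i j : Fin 12, i ≠ j →
    (nf (winv (gw i) ++ gw j) ∈ Wh ∨ nf (winv (gw i) ++ gw j) ∈ Wn) ∨
    (nf (winv (gw j) ++ gw i) ∈ Wh ∨ nf (winv (gw j) ++ gw i) ∈ Wn) := by decide +kernel

lemma Wh_hyp : Wh.all hyp = true := by decide +kernel

lemma Wn_comb : Wn.all (fun u => Wn.all (fun w =>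
    hyp (u ++ winv gg ++ w ++ gg) || hyp (winv u ++ winv gg ++ w ++ gg))) = true := by
  decide +kernel

variable {V : Type} {r R : V → V} (hr : ∀ y, r (r (r y)) = y) (hR : ∀ y, R (R y) = y)
  {Q : V → Prop} (ha : ∀ y, Q y → Q (r y)) (hc : ∀ y, Q y → Q (R y))

include hr hR in
lemma fix_inv {w : List Lt} {y : V} (h : ev r R w y = y) : ev r R (winv w) y = y := by
  conv_lhs => rw [← h]
  exact ev_winv hr hR w y

include hr hR in
/-- A coincidence gives a fixing word from the lists. -/
lemma coinc {i j : Fin 12} (hij : i ≠ j) {y : V} (h : ev r R (gw i) y = ev r R (gw j) y) :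
    ∃ w, (w ∈ Wh ∨ w ∈ Wn) ∧ ev r R w y = y := by
  rcases diff_mem i j hij with h1 | h1
  · refine ⟨_, h1, ?_⟩
    rw [ev_nf hr hR, ev_append, ← h, ev_winv hr hR]
  · refine ⟨_, h1, ?_⟩
    rw [ev_nf hr hR, ev_append, h, ev_winv hr hR]

include hr hR ha hc in
/-- Either one of the two base points is clean, or a short mixed word fixes something. -/
theorem clean_or {y : V} (hy : Q y) :
    (Function.Injective (fun i => ev r R (gw i) y)) ∨
    (Function.Injective (fun i => ev r R (gw i) (ev r R gg y))) ∨
    ∃ y' l, Q y' ∧ true ∈ l ∧ false ∈ l ∧ l.length ≤ 16 ∧ evp r R l y' = y' := by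
  by_cases h1 : Function.Injective (fun i => ev r R (gw i) y)
  · exact Or.inl h1
  by_cases h2 : Function.Injective (fun i => ev r R (gw i) (ev r R gg y))
  · exact Or.inr (Or.inl h2)
  right; right
  simp only [Function.Injective, not_forall] at h1 h2
  obtain ⟨i, j, e1, n1⟩ := h1
  obtain ⟨k, l, e2, n2⟩ := h2
  obtain ⟨u, hu, fu⟩ := coinc hr hR n1 e1
  obtain ⟨w, hw, fw⟩ := coinc hr hR n2 e2
  have hWh := List.all_eq_true.1 Wh_hyp
  rcases hu with hu | hu
  · exact hyp_sound hr hR ha hc (hWh u hu) ⟨y, hy, fu⟩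
  rcases hw with hw | hw
  · exact hyp_sound hr hR ha hc (hWh w hw) ⟨_, ev_mem ha hc gg hy, fw⟩
  have hcomb := List.all_eq_true.1 (List.all_eq_true.1 Wn_comb u hu) w hw
  rw [Bool.or_eq_true] at hcomb
  have fix2 : ev r R (winv gg) (ev r R w (ev r R gg y)) = y := by
    rw [fw, ev_winv hr hR]
  rcases hcomb with h | h
  · refine hyp_sound hr hR ha hc h ⟨y, hy, ?_⟩
    rw [ev_append, ev_append, ev_append, fix2, fu]
  · refine hyp_sound hr hR ha hc h ⟨y, hy, ?_⟩
    rw [ev_append, ev_append, ev_append, fix2, fix_inv hr hR fu]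

end Q198.Orig
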