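import Pool.Agent.Q198.Orig.Defs
import Pool.Agent.Q198.Orig.Words

/-! # The action on origamis -/

namespace Q198.Orig

variable {n : ℕ}

lemma mk_eq_of {P Q : Pair n} (σ : Equiv.Perm (Fin n)) (h : Q = (σ * P.1 * σ⁻¹, σ * P.2 * σ⁻¹)) :
    mk P = mk Q := Quotient.sound ⟨σ, h⟩

/-- The order three map modulo the centre. -/
def rX : Origami n → Origami n :=
  Quotient.map (fun P : Pair n => ((P.1 * P.2, P.1⁻¹) : Pair n)) (by
    rintro P Q ⟨σ, rfl⟩
    exact ⟨σ, by simp [mul_assoc]⟩)

/-- The quarter turn. -/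
def RX : Origami n → Origami n :=
  Quotient.map (fun P : Pair n => ((P.2, P.1⁻¹) : Pair n)) (by
    rintro P Q ⟨σ, rfl⟩
    exact ⟨σ, by simp [mul_assoc]⟩)

/-- The half turn. -/
def zX : Origami n → Origami n :=
  Quotient.map (fun P : Pair n => ((P.1⁻¹, P.2⁻¹) : Pair n)) (by
    rintro P Q ⟨σ, rfl⟩
    exact ⟨σ, by simp [mul_assoc]⟩)

/-- The inverse of `T`. -/
def TiX : Origami n → Origami n :=
  Quotient.map (fun P : Pair n => ((P.1, P.2 * P.1) : Pair n)) (by
    rintro P Q ⟨σ, rfl⟩
    exact ⟨σ, by simp [mul_assoc]⟩)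

/-- The inverse of `S`. -/
def SiX : Origami n → Origami n :=
  Quotient.map (fun P : Pair n => ((P.1 * P.2, P.2) : Pair n)) (by
    rintro P Q ⟨σ, rfl⟩
    exact ⟨σ, by simp [mul_assoc]⟩)

lemma rX_mk (P : Pair n) : rX (mk P) = mk (P.1 * P.2, P.1⁻¹) := rfl
lemma RX_mk (P : Pair n) : RX (mk P) = mk (P.2, P.1⁻¹) := rfl
lemma zX_mk (P : Pair n) : zX (mk P) = mk (P.1⁻¹, P.2⁻¹) := rfl
lemma TiX_mk (P : Pair n) : TiX (mk P) = mk (P.1, P.2 * P.1) := rfl
lemma SiX_mk (P : Pair n) : SiX (mk P) = mk (P.1 * P.2, P.2) := rfl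
lemma T_mk (P : Pair n) : T (mk P) = mk (P.1, P.2 * P.1⁻¹) := rfl
lemma S_mk (P : Pair n) : S (mk P) = mk (P.1 * P.2⁻¹, P.2) := rfl

lemma ind {motive : Origami n → Prop} (h : ∀ P, motive (mk P)) (x : Origami n) : motive x :=
  Quotient.inductionOn x h

lemma zz (x : Origami n) : zX (zX x) = x := by
  induction x using ind with
  | h P => simp [zX_mk]

lemma RR (x : Origami n) : RX (RX x) = zX x := by
  induction x using ind with
  | h P => simp [zX_mk, RX_mk]

lemma Rz (x : Origami n) : RX (zX x) = zX (RX x) := by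
  induction x using ind with
  | h P => simp [zX_mk, RX_mk]

lemma rz (x : Origami n) : rX (zX x) = zX (rX x) := by
  induction x using ind with
  | h P =>
    rw [zX_mk, rX_mk, rX_mk, zX_mk]
    exact (mk_eq_of P.1⁻¹ (by simp [mul_assoc])).symm

lemma rrr (x : Origami n) : rX (rX (rX x)) = zX x := by
  induction x using ind with
  | h P =>
    rw [zX_mk, rX_mk, rX_mk, rX_mk]
    exact mk_eq_of (P.1 * P.2)⁻¹ (by simp [mul_assoc])

lemma TiX_eq (x : Origami n) : TiX x = zX (RX (rX x)) := by
  induction x using ind with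
  | h P =>
    rw [TiX_mk, rX_mk, RX_mk, zX_mk]
    exact (mk_eq_of P.1⁻¹ (by simp [mul_assoc])).symm

lemma SiX_eq (x : Origami n) : SiX x = zX (RX (rX (rX x))) := by
  induction x using ind with
  | h P =>
    rw [SiX_mk, rX_mk, rX_mk, RX_mk, zX_mk]
    exact (mk_eq_of (P.2⁻¹ * P.1⁻¹) (by simp [mul_assoc])).symm

lemma T_TiX (x : Origami n) : T (TiX x) = x := by
  induction x using ind with
  | h P => simp [TiX_mk, T_mk]

lemma S_SiX (x : Origami n) : S (SiX x) = x := by
  induction x using ind with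
  | h P => simp [SiX_mk, S_mk]

lemma rX_eq (x : Origami n) : rX x = T (SiX x) := by
  induction x using ind with
  | h P => simp [SiX_mk, T_mk, rX_mk]

lemma RX_eq (x : Origami n) : RX x = T (SiX (T x)) := by
  induction x using ind with
  | h P =>
    rw [T_mk, SiX_mk, T_mk, RX_mk]
    exact mk_eq_of P.1 (by simp [mul_assoc])

variable {O : Origami n}

lemma orb_Si {x : Origami n} (h : InOrbit O x) : InOrbit O (SiX x) :=
  InOrbit.undoS (by rw [S_SiX]; exact h)

lemma orb_Ti {x : Origami n} (h : InOrbit O x) : InOrbit O (TiX x) :=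
  InOrbit.undoT (by rw [T_TiX]; exact h)

lemma orb_r {x : Origami n} (h : InOrbit O x) : InOrbit O (rX x) := by
  rw [rX_eq]; exact InOrbit.applyT (orb_Si h)

lemma orb_R {x : Origami n} (h : InOrbit O x) : InOrbit O (RX x) := by
  rw [RX_eq]; exact InOrbit.applyT (orb_Si (InOrbit.applyT h))

lemma orb_z {x : Origami n} (h : InOrbit O x) : InOrbit O (zX x) := by
  rw [← RR]; exact orb_R (orb_R h)

lemma orb_trans {x y : Origami n} (h : InOrbit O x) (h' : InOrbit x y) : InOrbit O y := by
  induction h' with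
  | base => exact h
  | applyT _ ih => exact InOrbit.applyT ih
  | applyS _ ih => exact InOrbit.applyS ih
  | undoT _ ih => exact InOrbit.undoT ih
  | undoS _ ih => exact InOrbit.undoS ih

lemma prim_z {x : Origami n} (h : IsPrimitiveH2 x) : IsPrimitiveH2 (RX x) := by
  obtain ⟨P, rfl, h3, hp⟩ := h
  refine ⟨(P.2, P.1⁻¹), rfl, ?_, ?_⟩
  · have e : P.2 * P.1⁻¹ * P.2⁻¹ * (P.1⁻¹)⁻¹ =
        P.1⁻¹ * (P.1 * P.2 * P.1⁻¹ * P.2⁻¹) * (P.1⁻¹)⁻¹ := by group
    change (P.2 * P.1⁻¹ * P.2⁻¹ * (P.1⁻¹)⁻¹).IsThreeCycle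
    rw [e, Equiv.Perm.IsThreeCycle, Equiv.Perm.cycleType_conj]
    exact h3
  · have e : Subgroup.closure {P.2, P.1⁻¹} = Subgroup.closure {P.1, P.2} := by
      apply le_antisymm
      · rw [Subgroup.closure_le]
        rintro x (rfl | rfl)
        · exact Subgroup.subset_closure (by simp)
        · exact inv_mem (Subgroup.subset_closure (by simp))
      · rw [Subgroup.closure_le]
        rintro x (rfl | rfl)
        · exact inv_mem_iff.1 (Subgroup.subset_closure (by simp))
        · exact Subgroup.subset_closure (by simp)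
    change MulAction.IsPreprimitive (Subgroup.closure {P.2, P.1⁻¹}) (Fin n)
    rw [e]; exact hp

lemma prim_r {x : Origami n} (h : IsPrimitiveH2 x) : IsPrimitiveH2 (rX x) := by
  obtain ⟨P, rfl, h3, hp⟩ := h
  refine ⟨(P.1 * P.2, P.1⁻¹), rfl, ?_, ?_⟩
  · have e : P.1 * P.2 * P.1⁻¹ * (P.1 * P.2)⁻¹ * (P.1⁻¹)⁻¹ = P.1 * P.2 * P.1⁻¹ * P.2⁻¹ := by group
    change (P.1 * P.2 * P.1⁻¹ * (P.1 * P.2)⁻¹ * (P.1⁻¹)⁻¹).IsThreeCycle
    rw [e]; exact h3
  · have e : Subgroup.closure {P.1 * P.2, P.1⁻¹} = Subgroup.closure {P.1, P.2} := by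
      apply le_antisymm
      · rw [Subgroup.closure_le]
        rintro x (rfl | rfl)
        · exact mul_mem (Subgroup.subset_closure (by simp)) (Subgroup.subset_closure (by simp))
        · exact inv_mem (Subgroup.subset_closure (by simp))
      · rw [Subgroup.closure_le]
        have h1 : P.1 ∈ Subgroup.closure {P.1 * P.2, P.1⁻¹} :=
          inv_mem_iff.1 (Subgroup.subset_closure (by simp))
        rintro x (rfl | rfl)
        · exact h1
        · have h2 : P.1 * P.2 ∈ Subgroup.closure {P.1 * P.2, P.1⁻¹} :=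
            Subgroup.subset_closure (by simp)
          have := mul_mem (inv_mem h1) h2
          simpa using this
    change MulAction.IsPreprimitive (Subgroup.closure {P.1 * P.2, P.1⁻¹}) (Fin n)
    rw [e]; exact hp

/-- Origamis up to the half turn. -/
def zSetoid (n : ℕ) : Setoid (Origami n) where
  r x y := y = x ∨ y = zX x
  iseqv :=
    { refl := fun x => Or.inl rfl
      symm := by
        rintro x y (rfl | rfl)
        · exact Or.inl rfl
        · exact Or.inr (zz x).symm
      trans := by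
        rintro x y z (rfl | rfl) (rfl | rfl)
        · exact Or.inl rfl
        · exact Or.inr rfl
        · exact Or.inr rfl
        · exact Or.inl (zz x) }

/-- The quotient by the half turn. -/
def Vp (n : ℕ) : Type := Quotient (zSetoid n)

/-- The projection. -/
def pr (x : Origami n) : Vp n := Quotient.mk (zSetoid n) x

lemma pr_eq {x y : Origami n} (h : pr x = pr y) : y = x ∨ y = zX x := Quotient.exact h
lemma pr_z (x : Origami n) : pr (zX x) = pr x := (Quotient.sound (Or.inr rfl)).symm

/-- The induced map. -/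
def rV : Vp n → Vp n := Quotient.map rX (by
  rintro x y (rfl | rfl)
  · exact Or.inl rfl
  · exact Or.inr (rz x))

/-- The induced map. -/
def RV : Vp n → Vp n := Quotient.map RX (by
  rintro x y (rfl | rfl)
  · exact Or.inl rfl
  · exact Or.inr (Rz x))

lemma rV_pr (x : Origami n) : rV (pr x) = pr (rX x) := rfl
lemma RV_pr (x : Origami n) : RV (pr x) = pr (RX x) := rfl

lemma rV3 (y : Vp n) : rV (rV (rV y)) = y := by
  induction y using Quotient.inductionOn with
  | h x => exact (congrArg pr (rrr x)).trans (pr_z x)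

lemma RV2 (y : Vp n) : RV (RV y) = y := by
  induction y using Quotient.inductionOn with
  | h x => exact (congrArg pr (RR x)).trans (pr_z x)

lemma ev_pr (w : List Lt) (x : Origami n) : ev rV RV w (pr x) = pr (ev rX RX w x) := by
  induction w with
  | nil => rfl
  | cons l t ih =>
    cases l <;> simp [ev, act, ih, rV_pr, RV_pr]

/-- The moves as a function of the sign. -/
def mv (g : Bool) : Origami n → Origami n := if g then TiX else SiX

/-- Iterated moves, the last one acting first. -/
def evX : List Bool → Origami n → Origami n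
  | [], x => x
  | g :: t, x => mv g (evX t x)

lemma evp_pr (l : List Bool) (x : Origami n) : evp rV RV l (pr x) = pr (evX l x) := by
  induction l with
  | nil => rfl
  | cons g t ih =>
    cases g
    · change RV (rV (rV (evp rV RV t (pr x)))) = pr (SiX (evX t x))
      rw [ih, SiX_eq, pr_z]; rfl
    · change RV (rV (evp rV RV t (pr x))) = pr (TiX (evX t x))
      rw [ih, TiX_eq, pr_z]; rfl

lemma mv_z (g : Bool) (x : Origami n) : mv g (zX x) = zX (mv g x) := by
  cases g
  · change SiX (zX x) = zX (SiX x)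
    rw [SiX_eq, SiX_eq, rz, rz, Rz]
  · change TiX (zX x) = zX (TiX x)
    rw [TiX_eq, TiX_eq, rz, Rz]

lemma evX_z (l : List Bool) (x : Origami n) : evX l (zX x) = zX (evX l x) := by
  induction l with
  | nil => rfl
  | cons g t ih => rw [evX, ih, mv_z]; rfl

lemma evX_append (l m : List Bool) (x : Origami n) : evX (l ++ m) x = evX l (evX m x) := by
  induction l with
  | nil => rfl
  | cons g t ih => rw [List.cons_append, evX, ih]; rfl

lemma evX_twice {l : List Bool} {x : Origami n} (h : evp rV RV l (pr x) = pr x) :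
    evX (l ++ l) x = x := by
  rw [evp_pr] at h
  rw [evX_append]
  rcases pr_eq h.symm with h1 | h1
  · rw [h1, h1]
  · rw [h1, evX_z, h1, zz]

end Q198.Orig
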