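import Pool.Agent.Q198.Orig.Cochain

/-! # Zero sets of non-negative eigen-cochains, and the top eigenvalue -/

namespace Q198.Orig

open Finset

variable {α : Type*} [Fintype α] [DecidableEq α]

/-- The zero set of the horizontal part. -/
noncomputable def Zh (x : Coch α ℝ) : Finset α := univ.filter (fun i => x.1 i = 0)
/-- The zero set of the vertical part. -/
noncomputable def Zv (x : Coch α ℝ) : Finset α := univ.filter (fun i => x.2 i = 0)

/-- Non-negativity. -/
def NN (x : Coch α ℝ) : Prop := (∀ i, 0 ≤ x.1 i) ∧ (∀ i, 0 ≤ x.2 i)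

omit [DecidableEq α] in
lemma NN_step {x : Coch α ℝ} (hx : NN x) (g : Bool) (P : Equiv.Perm α × Equiv.Perm α) :
    NN (stepE ℝ g P x) := by
  cases g
  · exact ⟨fun i => add_nonneg (hx.2 _) (hx.1 _), hx.2⟩
  · exact ⟨hx.1, fun i => add_nonneg (hx.1 _) (hx.2 _)⟩

omit [DecidableEq α] in
lemma NN_run {x : Coch α ℝ} (hx : NN x) (p : List Bool) (P : Equiv.Perm α × Equiv.Perm α) :
    NN (runE ℝ p P x) := by
  induction p generalizing P x with
  | nil => exact hx
  | cons g p ih => exact ih (NN_step hx g P) _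

omit [DecidableEq α] in
lemma memZh {x : Coch α ℝ} {i : α} : i ∈ Zh x ↔ x.1 i = 0 := by simp [Zh]
omit [DecidableEq α] in
lemma memZv {x : Coch α ℝ} {i : α} : i ∈ Zv x ↔ x.2 i = 0 := by simp [Zv]

omit [DecidableEq α] in
lemma stepT_Zh (P : Equiv.Perm α × Equiv.Perm α) (x : Coch α ℝ) :
    Zh (stepE ℝ true P x) = Zh x := by
  ext i; simp [memZh]
omit [DecidableEq α] in
lemma stepF_Zv (P : Equiv.Perm α × Equiv.Perm α) (x : Coch α ℝ) :
    Zv (stepE ℝ false P x) = Zv x := by
  ext i; simp [memZv]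
omit [DecidableEq α] in
lemma stepT_Zv {x : Coch α ℝ} (hx : NN x) (P : Equiv.Perm α × Equiv.Perm α) (i : α) :
    i ∈ Zv (stepE ℝ true P x) ↔ i ∈ Zh x ∧ P.1 i ∈ Zv x := by
  simp only [memZv, memZh, stepE_true]
  exact add_eq_zero_iff_of_nonneg (hx.1 _) (hx.2 _)
omit [DecidableEq α] in
lemma stepF_Zh {x : Coch α ℝ} (hx : NN x) (P : Equiv.Perm α × Equiv.Perm α) (i : α) :
    i ∈ Zh (stepE ℝ false P x) ↔ i ∈ Zv x ∧ P.2 i ∈ Zh x := by
  simp only [memZv, memZh, stepE_false]
  exact add_eq_zero_iff_of_nonneg (hx.2 _) (hx.1 _)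

lemma card_pre (h : Equiv.Perm α) (F : Finset α) : (univ.filter (fun i => h i ∈ F)).card = F.card := by
  have : (univ.filter (fun i => h i ∈ F)) = F.map h.symm.toEmbedding := by
    ext i; simp only [mem_filter, mem_univ, true_and, mem_map_equiv, Equiv.symm_symm]
  rw [this, card_map]

lemma card_step {x : Coch α ℝ} (hx : NN x) (g : Bool) (P : Equiv.Perm α × Equiv.Perm α) :
    (Zh (stepE ℝ g P x)).card ≤ (Zh x).card ∧ (Zv (stepE ℝ g P x)).card ≤ (Zv x).card := by
  cases g
  · refine ⟨?_, by rw [stepF_Zv]⟩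
    rw [← card_pre P.2 (Zh x)]
    apply card_le_card
    intro i hi
    simpa using ((stepF_Zh hx P i).1 hi).2
  · refine ⟨by rw [stepT_Zh], ?_⟩
    rw [← card_pre P.1 (Zv x)]
    apply card_le_card
    intro i hi
    simpa using ((stepT_Zv hx P i).1 hi).2

lemma card_run {x : Coch α ℝ} (hx : NN x) (p : List Bool) (P : Equiv.Perm α × Equiv.Perm α) :
    (Zh (runE ℝ p P x)).card ≤ (Zh x).card ∧ (Zv (runE ℝ p P x)).card ≤ (Zv x).card := by
  induction p generalizing P x with
  | nil => simp
  | cons g p ih =>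
    have h1 := card_step hx g P
    have h2 := ih (NN_step hx g P) (step g P)
    exact ⟨h2.1.trans h1.1, h2.2.trans h1.2⟩

/-- Equality of the sizes of zero sets at both ends of a word. -/
def EqC (p : List Bool) (P : Equiv.Perm α × Equiv.Perm α) (x : Coch α ℝ) : Prop :=
  (Zh (runE ℝ p P x)).card = (Zh x).card ∧ (Zv (runE ℝ p P x)).card = (Zv x).card

lemma EqC_cons {g : Bool} {p : List Bool} {P : Equiv.Perm α × Equiv.Perm α} {x : Coch α ℝ}
    (hx : NN x) (h : EqC (g :: p) P x) :
    EqC p (step g P) (stepE ℝ g P x) ∧ (Zh (stepE ℝ g P x)).card = (Zh x).card ∧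
      (Zv (stepE ℝ g P x)).card = (Zv x).card := by
  have h1 := card_step hx g P
  have h2 := card_run (NN_step hx g P) p (step g P)
  obtain ⟨h3, h4⟩ := h
  rw [runE_cons] at h3 h4
  have e1 : (Zh (stepE ℝ g P x)).card = (Zh x).card := le_antisymm h1.1 (h3 ▸ h2.1)
  have e2 : (Zv (stepE ℝ g P x)).card = (Zv x).card := le_antisymm h1.2 (h4 ▸ h2.2)
  exact ⟨⟨by rw [h3, e1], by rw [h4, e2]⟩, e1, e2⟩

lemma size_T {p : List Bool} (hp : true ∈ p) {P : Equiv.Perm α × Equiv.Perm α} {x : Coch α ℝ}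
    (hx : NN x) (h : EqC p P x) : (Zv x).card ≤ (Zh x).card := by
  induction p generalizing P x with
  | nil => simp at hp
  | cons g p ih =>
    obtain ⟨h1, h2, h3⟩ := EqC_cons hx h
    cases g
    · rw [← h2, ← h3]
      exact ih (by simpa using hp) (NN_step hx _ _) h1
    · rw [← h3]
      apply card_le_card
      intro i hi
      exact ((stepT_Zv hx P i).1 hi).1

lemma size_F {p : List Bool} (hp : false ∈ p) {P : Equiv.Perm α × Equiv.Perm α} {x : Coch α ℝ}
    (hx : NN x) (h : EqC p P x) : (Zh x).card ≤ (Zv x).card := by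
  induction p generalizing P x with
  | nil => simp at hp
  | cons g p ih =>
    obtain ⟨h1, h2, h3⟩ := EqC_cons hx h
    cases g
    · rw [← h2]
      apply card_le_card
      intro i hi
      exact ((stepF_Zh hx P i).1 hi).1
    · rw [← h2, ← h3]
      exact ih (by simpa using hp) (NN_step hx _ _) h1

/-- After one step the two zero sets agree. -/
lemma eq_after_step {g : Bool} {P : Equiv.Perm α × Equiv.Perm α} {x : Coch α ℝ}
    (hx : NN x) (h2 : (Zh (stepE ℝ g P x)).card = (Zh x).card)
    (h3 : (Zv (stepE ℝ g P x)).card = (Zv x).card) (hs : (Zh x).card = (Zv x).card) :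
    Zh (stepE ℝ g P x) = Zv (stepE ℝ g P x) := by
  cases g
  · apply eq_of_subset_of_card_le
    · intro i hi
      rw [stepF_Zv]
      exact ((stepF_Zh hx P i).1 hi).1
    · rw [h2, h3, hs]
  · symm
    apply eq_of_subset_of_card_le
    · intro i hi
      rw [stepT_Zh]
      exact ((stepT_Zv hx P i).1 hi).1
    · rw [h2, h3, hs]

lemma last_eq {p : List Bool} (hp : p ≠ []) {P : Equiv.Perm α × Equiv.Perm α} {x : Coch α ℝ}
    (hx : NN x) (h : EqC p P x) (hs : (Zh x).card = (Zv x).card) :
    Zh (runE ℝ p P x) = Zv (runE ℝ p P x) := by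
  induction p generalizing P x with
  | nil => exact absurd rfl hp
  | cons g p ih =>
    obtain ⟨h1, h2, h3⟩ := EqC_cons hx h
    by_cases hp' : p = []
    · subst hp'
      exact eq_after_step hx h2 h3 hs
    · exact ih hp' (NN_step hx _ _) h1 (h2.trans (hs.trans h3.symm))

lemma inv_zero {p : List Bool} {P : Equiv.Perm α × Equiv.Perm α} {x : Coch α ℝ}
    (hx : NN x) (h : EqC p P x) (he : Zh x = Zv x) :
    (true ∈ p → ∀ i, P.1 i ∈ Zh x ↔ i ∈ Zh x) ∧ (false ∈ p → ∀ i, P.2 i ∈ Zh x ↔ i ∈ Zh x) := by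
  induction p generalizing P x with
  | nil => simp
  | cons g p ih =>
    obtain ⟨h1, h2, h3⟩ := EqC_cons hx h
    have he' := eq_after_step hx h2 h3 (by rw [he])
    have IH := ih (NN_step hx g P) h1 he'
    cases g
    · -- v-move: `Zh' = Zv ∩ v⁻¹ Zh`
      have hsub : Zh (stepE ℝ false P x) = Zh x := by
        rw [he', stepF_Zv, he]
      have hv : ∀ i, P.2 i ∈ Zh x ↔ i ∈ Zh x := by
        have hsub2 : Zh x ⊆ univ.filter (fun i => P.2 i ∈ Zh x) := by
          intro i hi
          rw [← hsub] at hi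
          simpa using ((stepF_Zh hx P i).1 hi).2
        have := eq_of_subset_of_card_le hsub2 (by rw [card_pre])
        intro i
        conv_rhs => rw [this]
        simp
      refine ⟨fun ht i => ?_, fun _ => hv⟩
      have ht' : true ∈ p := by simpa using ht
      have e := IH.1 ht' (P.2⁻¹ i)
      rw [hsub] at e
      simp only [step_false, Equiv.Perm.mul_apply] at e
      have e' : P.2 (P.2⁻¹ i) = i := by simp
      have e2 := hv (P.2⁻¹ i)
      rw [e'] at e e2
      rw [e, e2]
    · have hsub : Zh (stepE ℝ true P x) = Zh x := stepT_Zh P x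
      have hh : ∀ i, P.1 i ∈ Zh x ↔ i ∈ Zh x := by
        have hsub2 : Zh x ⊆ univ.filter (fun i => P.1 i ∈ Zh x) := by
          intro i hi
          rw [← hsub, he'] at hi
          have := ((stepT_Zv hx P i).1 hi).2
          rw [← he] at this
          simpa using this
        have := eq_of_subset_of_card_le hsub2 (by rw [card_pre])
        intro i
        conv_rhs => rw [this]
        simp
      refine ⟨fun _ => hh, fun ht i => ?_⟩
      have ht' : false ∈ p := by simpa using ht
      have e := IH.2 ht' (P.1⁻¹ i)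
      rw [hsub] at e
      simp only [step_true, Equiv.Perm.mul_apply] at e
      have e' : P.1 (P.1⁻¹ i) = i := by simp
      have e2 := hh (P.1⁻¹ i)
      rw [e'] at e e2
      rw [e, e2]

/-- Transitivity of the group generated by the two permutations, in the form used here. -/
def Trans (P : Equiv.Perm α × Equiv.Perm α) : Prop :=
  ∀ F : Finset α, (∀ i, P.1 i ∈ F ↔ i ∈ F) → (∀ i, P.2 i ∈ F ↔ i ∈ F) → F = ∅ ∨ F = univ

variable {p : List Bool} {P : Equiv.Perm α × Equiv.Perm α} {σ : Equiv.Perm α}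

/-- A non-negative eigen-cochain with a zero vanishes identically. -/
theorem zero_of_zero (ht : true ∈ p) (hf : false ∈ p) (hT : Trans P) {lam : ℝ} (hl : 0 < lam)
    {y : Coch α ℝ} (hy : NN y) (he : Bop ℝ p P σ y = lam • y)
    (hz : (∃ i, y.1 i = 0) ∨ ∃ i, y.2 i = 0) : y = 0 := by
  have e1 : ∀ i, (runE ℝ p P y).1 (σ i) = lam * y.1 i := fun i => by
    have := congrFun (congrArg Prod.fst he) i
    simpa [Bop_apply] using this
  have e2 : ∀ i, (runE ℝ p P y).2 (σ i) = lam * y.2 i := fun i => by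
    have := congrFun (congrArg Prod.snd he) i
    simpa [Bop_apply] using this
  have m1 : ∀ i, σ i ∈ Zh (runE ℝ p P y) ↔ i ∈ Zh y := fun i => by
    rw [memZh, memZh, e1]; simp [hl.ne']
  have m2 : ∀ i, σ i ∈ Zv (runE ℝ p P y) ↔ i ∈ Zv y := fun i => by
    rw [memZv, memZv, e2]; simp [hl.ne']
  have hEq : EqC p P y := by
    constructor
    · rw [← card_pre σ (Zh (runE ℝ p P y))]
      congr 1; ext i; simp [m1]
    · rw [← card_pre σ (Zv (runE ℝ p P y))]
      congr 1; ext i; simp [m2]
  have hs : (Zh y).card = (Zv y).card := le_antisymm (size_F hf hy hEq) (size_T ht hy hEq)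
  have hne : p ≠ [] := by rintro rfl; simp at ht
  have hl1 := last_eq hne hy hEq hs
  have hZ : Zh y = Zv y := by
    ext i; rw [← m1, ← m2, hl1]
  have hI := inv_zero hy hEq hZ
  rcases hT (Zh y) (hI.1 ht) (hI.2 hf) with h0 | h0
  · exfalso
    rcases hz with ⟨i, hi⟩ | ⟨i, hi⟩
    · have : i ∈ Zh y := memZh.2 hi
      simp [h0] at this
    · have : i ∈ Zh y := by rw [hZ]; exact memZv.2 hi
      simp [h0] at this
  · ext i
    · have : i ∈ Zh y := by rw [h0]; simp
      simpa using memZh.1 this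
    · have : i ∈ Zh y := by rw [h0]; simp
      rw [hZ] at this
      simpa using memZv.1 this

end Q198.Orig
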