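import Pool.Agent.Q198.Orig.Lattice

/-! # The lattice of cocycles modulo boundaries and constants is free of rank two -/

namespace Q198.Orig

open Finset Module

lemma rk {R M N : Type} [CommRing R] [IsDomain R] [AddCommGroup M] [AddCommGroup N] [Module R M]
    [Module R N] [Module.Finite R M] (f : M →ₗ[R] N) :
    finrank R (LinearMap.range f) + finrank R (LinearMap.ker f) = finrank R M := by
  rw [← Submodule.finrank_quotient_add_finrank (LinearMap.ker f),
    (LinearEquiv.finrank_eq f.quotKerEquivRange)]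

variable {α : Type} [Fintype α] [DecidableEq α] {P : Equiv.Perm α × Equiv.Perm α}

/-- The lattice. -/
abbrev Qt (P : Equiv.Perm α × Equiv.Perm α) : Type := (Zc P) ⧸ (Bc P).submoduleOf (Zc P)

omit [Fintype α] [DecidableEq α] in
/-- An equivariant function to an abelian group is constant. -/
lemma const_of_equiv (hP : Prim P) (hM : ∃ a : α, nc P a) {A : Type} [AddCommGroup A] (f : α → A)
    (u1 u2 : A) (h1 : ∀ i, f (P.1 i) = f i + u1) (h2 : ∀ i, f (P.2 i) = f i + u2) :
    (∀ i j, f i = f j) ∧ u1 = 0 ∧ u2 = 0 := by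
  obtain ⟨a, ha⟩ := hM
  have hc : ∀ i j, f i = f j := by
    rcases hP _ f (fun i j => by rw [h1, h1]; simp) (fun i j => by rw [h2, h2]; simp) with h | h
    · exfalso
      apply ha
      apply h
      rw [h1, h2, h2, h1]; abel
    · exact h
  refine ⟨hc, ?_, ?_⟩
  · have := h1 a
    rw [hc (P.1 a) a] at this
    simpa using this.symm
  · have := h2 a
    rw [hc (P.2 a) a] at this
    simpa using this.symm

lemma rank_Bc (hP : Prim P) (hM : ∃ a : α, nc P a) :
    finrank ℤ (Bc P) = Fintype.card α + 1 := by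
  have h := rk (Th P)
  have hdim : finrank ℤ ((α → ℤ) × (ℤ × ℤ)) = Fintype.card α + 2 := by simp
  let ι : ℤ →ₗ[ℤ] ((α → ℤ) × (ℤ × ℤ)) :=
    { toFun := fun c => (fun _ => c, (0, 0))
      map_add' := fun a b => by ext <;> simp
      map_smul' := fun a b => by ext <;> simp }
  have hker : LinearMap.ker (Th P) = LinearMap.range ι := by
    ext y
    constructor
    · intro hy
      rw [LinearMap.mem_ker, Th_apply] at hy
      have e1 : ∀ i, y.1 (P.1 i) = y.1 i + (-y.2.1) := fun i => by
        have := congrFun (congrArg Prod.fst hy) i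
        simp [dl, cst] at this
        linarith
      have e2 : ∀ i, y.1 (P.2 i) = y.1 i + (-y.2.2) := fun i => by
        have := congrFun (congrArg Prod.snd hy) i
        simp [dl, cst] at this
        linarith
      obtain ⟨h1, h2, h3⟩ := const_of_equiv hP hM y.1 _ _ e1 e2
      obtain ⟨a, -⟩ := hM
      refine ⟨y.1 a, ?_⟩
      ext i
      · exact h1 a i
      · simpa [ι] using (neg_eq_zero.1 h2).symm
      · simpa [ι] using (neg_eq_zero.1 h3).symm
    · rintro ⟨c, rfl⟩
      rw [LinearMap.mem_ker, Th_apply]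
      ext i <;> simp [ι, dl, cst]
  have hinj : Function.Injective ι := by
    obtain ⟨a, -⟩ := hM
    intro c d hcd
    exact congrFun (congrArg Prod.fst hcd) a
  rw [hdim, hker, LinearMap.finrank_range_of_inj hinj, finrank_self] at h
  change finrank ℤ (Bc P) + 1 = _ at h
  omega

lemma rank_Zc (hP : Prim P) (hM : ∃ a b : α, a ≠ b ∧ nc P a ∧ nc P b) :
    finrank ℤ (Zc P) + Nat.card {i : α // ¬ nc P i} = 2 * Fintype.card α := by
  classical
  let ψ := (LinearMap.fst ℤ ({i : α // ¬ nc P i} → ℤ) (ℤ × ℤ)).comp (Psi P)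
  have hr : LinearMap.range ψ = ⊤ := by
    rw [LinearMap.range_comp, Psi_surj hP hM, Submodule.map_top]
    exact LinearMap.range_eq_top.2 LinearMap.fst_surjective
  have hk : LinearMap.ker ψ = Zc P := by
    ext x
    rw [LinearMap.mem_ker]
    constructor
    · intro h i hi
      exact congrFun h ⟨i, hi⟩
    · intro h
      ext i
      exact h i.1 i.2
  have h := rk ψ
  rw [hr, hk, finrank_top] at h
  have h2 : finrank ℤ (Coch α ℤ) = 2 * Fintype.card α := by simp; ring
  rw [h2] at h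
  rw [← h, add_comm]
  congr 1
  rw [Module.finrank_pi, Nat.card_eq_fintype_card]

lemma rank_Qt (hP : Prim P) (hM : ∃ a b : α, a ≠ b ∧ nc P a ∧ nc P b)
    (h3 : Nat.card {i : α // ¬ nc P i} + 3 = Fintype.card α) : finrank ℤ (Qt P) = 2 := by
  have h1 := Submodule.finrank_quotient_add_finrank ((Bc P).submoduleOf (Zc P))
  rw [LinearEquiv.finrank_eq (Submodule.submoduleOfEquivOfLe (Bc_le P))] at h1
  have h2 := rank_Zc hP hM
  obtain ⟨a, b, -, ha, -⟩ := hM
  rw [rank_Bc hP ⟨a, ha⟩] at h1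
  have h4 : finrank ℤ (Qt P) + (Fintype.card α + 1) = finrank ℤ (Zc P) := h1
  omega

/-- Saturation of boundaries plus constants. -/
lemma sat_Bc (hP : Prim P) (hM : ∃ a : α, nc P a) {x : Coch α ℤ} {m : ℤ} (hm : m ≠ 0)
    (h : m • x ∈ Bc P) : x ∈ Bc P := by
  obtain ⟨⟨f, u⟩, hy⟩ := h
  rw [Th_apply] at hy
  let n : ℕ := m.natAbs
  let φ : α → ZMod n := fun i => (f i : ZMod n)
  have hm0 : ((m : ℤ) : ZMod n) = 0 := by
    rw [ZMod.intCast_zmod_eq_zero_iff_dvd]
    exact Int.natAbs_dvd.2 dvd_rfl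
  have e1 : ∀ i, φ (P.1 i) = φ i + (-(u.1 : ZMod n)) := fun i => by
    have := congrFun (congrArg Prod.fst hy) i
    simp only [dl, cst, Prod.fst_add, Pi.add_apply, Prod.smul_fst, Pi.smul_apply, smul_eq_mul] at this
    have h2 := congrArg (fun z : ℤ => (z : ZMod n)) this
    simp only [Int.cast_add, Int.cast_sub, Int.cast_mul, hm0, zero_mul] at h2
    have : φ (P.1 i) - φ i + (u.1 : ZMod n) = 0 := h2
    rw [← sub_eq_zero, ← this]; ring
  have e2 : ∀ i, φ (P.2 i) = φ i + (-(u.2 : ZMod n)) := fun i => by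
    have := congrFun (congrArg Prod.snd hy) i
    simp only [dl, cst, Prod.snd_add, Pi.add_apply, Prod.smul_snd, Pi.smul_apply, smul_eq_mul] at this
    have h2 := congrArg (fun z : ℤ => (z : ZMod n)) this
    simp only [Int.cast_add, Int.cast_sub, Int.cast_mul, hm0, zero_mul] at h2
    have : φ (P.2 i) - φ i + (u.2 : ZMod n) = 0 := h2
    rw [← sub_eq_zero, ← this]; ring
  obtain ⟨h1, h2, h3⟩ := const_of_equiv hP hM φ _ _ e1 e2
  have d1 : m ∣ u.1 := by
    have := (ZMod.intCast_zmod_eq_zero_iff_dvd u.1 n).1 (neg_eq_zero.1 h2)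
    exact Int.natAbs_dvd.1 this
  have d2 : m ∣ u.2 := by
    have := (ZMod.intCast_zmod_eq_zero_iff_dvd u.2 n).1 (neg_eq_zero.1 h3)
    exact Int.natAbs_dvd.1 this
  obtain ⟨a, -⟩ := hM
  have d3 : ∀ i, m ∣ f i - f a := fun i => by
    have : ((f i - f a : ℤ) : ZMod n) = 0 := by
      push_cast
      rw [sub_eq_zero]
      exact h1 i a
    exact Int.natAbs_dvd.1 ((ZMod.intCast_zmod_eq_zero_iff_dvd _ n).1 this)
  obtain ⟨w1, hw1⟩ := d1
  obtain ⟨w2, hw2⟩ := d2
  choose g hg using d3
  refine ⟨(g, (w1, w2)), ?_⟩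
  rw [Th_apply]
  ext i
  · have := congrFun (congrArg Prod.fst hy) i
    simp only [dl, cst, Prod.fst_add, Pi.add_apply, Prod.smul_fst, Pi.smul_apply, smul_eq_mul] at this ⊢
    have k1 := hg (P.1 i)
    have k2 := hg i
    have : m * (g (P.1 i) - g i + w1) = m * x.1 i := by rw [← this]; linarith
    exact mul_left_cancel₀ hm this
  · have := congrFun (congrArg Prod.snd hy) i
    simp only [dl, cst, Prod.snd_add, Pi.add_apply, Prod.smul_snd, Pi.smul_apply, smul_eq_mul] at this ⊢
    have k1 := hg (P.2 i)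
    have k2 := hg i
    have : m * (g (P.2 i) - g i + w2) = m * x.2 i := by rw [← this]; linarith
    exact mul_left_cancel₀ hm this

lemma tf_Qt (hP : Prim P) (hM : ∃ a : α, nc P a) : Module.IsTorsionFree ℤ (Qt P) := by
  constructor
  intro r hr
  have hr0 : r ≠ 0 := hr.ne_zero
  intro x y hxy
  have hxy' : r • (x - y) = 0 := by rw [smul_sub]; exact sub_eq_zero.2 hxy
  obtain ⟨z, hz⟩ := Submodule.Quotient.mk_surjective _ (x - y)
  rw [← hz, ← Submodule.Quotient.mk_smul, Submodule.Quotient.mk_eq_zero] at hxy'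
  have : z.1 ∈ Bc P := sat_Bc hP hM hr0 hxy'
  have h0 : (Submodule.Quotient.mk z : Qt P) = 0 := by
    rw [Submodule.Quotient.mk_eq_zero]
    exact this
  rw [h0] at hz
  exact sub_eq_zero.1 hz.symm

end Q198.Orig
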